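import Pool.Agent.Lib.MP_305fdd_al.F8.D1.MainX
import Pool.Agent.Lib.MP_305fdd_al.F8.AB.Mod

/-!
# MP_305fdd_al, `d = 1`: the groups `GA (al1 ^ n)` as Kleinian groups
-/

set_option autoImplicit false

namespace Pool.Agent.F8.D1

open Pool.Agent.MP_305fdd_al Pool.Agent.Lib.MP_305fdd_al Pool.Agent.F2X Pool.Agent.F8
  Pool.Agent.F8.HN Pool.Agent.F8.AB Pool.Agent.F8.OV

/-- the representation of `G1` in `SL₂(Z1) / ±1` is faithful -/
theorem faith1 (g : G1) (h : pj Z1 (rho1 (ee ℤ) (ff ℤ) (ee_eq ℤ) (ff_eq ℤ) g) = 1) : g = 1 := by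
  have h1 : Th1 (iK kp1 g) = 1 := by
    show Th1s _ _ _ _ _ = _
    rw [Th1s_iK, h]
  have h2 := PG.Th_inj _ h1
  apply iK_injective kp1
  rw [h2, map_one]

variable (e f : ℂ) (he : e ^ 4 + 1 = 0) (hf : f ^ 2 = 1 + e ^ 2)

/-- the embedding of `Z1` -/
noncomputable def jC : Z1 →+* ℂ := evs (Int.castRingHom ℂ) e f he hf

theorem jC_injective : Function.Injective (jC e f he hf) := (NG.T.p_ji Z1).1 ℂ (jC e f he hf)

theorem jC_ee : jC e f he hf (ee ℤ) = e := evs_ee _ _ _ _ _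
theorem jC_ff : jC e f he hf (ff ℤ) = f := evs_ff _ _ _ _ _

theorem jC_rho (g : G1) :
    SLm (jC e f he hf) (rho1 (ee ℤ) (ff ℤ) (ee_eq ℤ) (ff_eq ℤ) g) = rho1 e f he hf g := by
  have h := DFunLike.congr_fun (map_rho1 (jC e f he hf) (ee ℤ) (ff ℤ) (ee_eq ℤ) (ff_eq ℤ)) g
  have h1 : SLm (jC e f he hf) (rho1 (ee ℤ) (ff ℤ) (ee_eq ℤ) (ff_eq ℤ) g) =
    rho1 (jC e f he hf (ee ℤ)) (jC e f he hf (ff ℤ)) (map_he (jC e f he hf) (ee_eq ℤ))
      (map_hf (jC e f he hf) (ff_eq ℤ)) g := h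
  rw [h1]
  congr 1
  simp only [jC_ee, jC_ff]

/-- the representation of `G1` in `PSL₂(ℂ)` -/
theorem rP1 (g : G1) : rP (jC e f he hf) (rho1 (ee ℤ) (ff ℤ) (ee_eq ℤ) (ff_eq ℤ)) g =
    pc (rho1 e f he hf g) := by
  show pc (SLm (jC e f he hf) _) = _
  rw [jC_rho]

/-- the group of the `n`-fold cyclic cover of the bundle with monodromy `L² R²` -/
noncomputable def K1C (n : ℕ) : Subgroup PC :=
  Subgroup.closure {pc (mu1 e f he hf), pc (mv1 e f he hf), pc (mt1 e f) ^ n}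

theorem K1C_eq (n : ℕ) : K1C e f he hf n =
    KP (jC e f he hf) (rho1 (ee ℤ) (ff ℤ) (ee_eq ℤ) (ff_eq ℤ)) n := by
  unfold K1C KP
  rw [rP1, rP1, rP1, rho1_iA, rho1_iA, rho1_tA, rF1_ga, rF1_gb]

/-- `K1C n` is isomorphic to `GA (al1 ^ n)` -/
theorem K1C_equiv (n : ℕ) (hn : 0 < n) : Nonempty (GA (al1 ^ n) ≃* K1C e f he hf n) :=
  ⟨(kpE (jC e f he hf) (rho1 (ee ℤ) (ff ℤ) (ee_eq ℤ) (ff_eq ℤ)) (jC_injective e f he hf) faith1 n
    hn).trans (MulEquiv.subgroupCongr (K1C_eq e f he hf n).symm)⟩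

/-- the parameter -/
theorem p_ne (he : e ^ 4 + 1 = 0) (hf : f ^ 2 = 1 + e ^ 2) : (e ^ 2 - 1) * f ≠ 0 := by
  intro h
  have h2 : ((e ^ 2 - 1) * f) ^ 2 = 0 := by rw [h]; ring
  have h3 : (2 : ℂ) * (1 - e ^ 2) = 0 := by
    linear_combination h2 - (e ^ 2 - 1) ^ 2 * hf - (e ^ 2 - 1) * he
  have h4 : e ^ 2 = 1 := by
    have : (1 : ℂ) - e ^ 2 = 0 := by
      rcases mul_eq_zero.1 h3 with h | h
      · norm_num at h
      · exact h
    linear_combination -this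
  have h5 : (2 : ℂ) = 0 := by linear_combination he - (e ^ 2 + 1) * h4
  norm_num at h5

/-- `t ^ n` -/
theorem K1C_up (n : ℕ) : pc (up (n * ((e ^ 2 - 1) * f))) ∈ K1C e f he hf n := by
  have h : pc (mt1 e f) ^ n ∈ K1C e f he hf n := Subgroup.subset_closure (by simp)
  rw [← map_pow] at h
  have e0 : mt1 e f = up ((e ^ 2 - 1) * f) := rfl
  rwa [e0, up_pow] at h

/-- `x⁻¹ t ^ n x`, `x = v⁻¹ u` -/
theorem K1C_lo (n : ℕ) : pc (lo (n * ((e ^ 2 - 1) * f))) ∈ K1C e f he hf n := by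
  have h1 : pc (mt1 e f) ^ n ∈ K1C e f he hf n := Subgroup.subset_closure (by simp)
  have h2 : pc (mu1 e f he hf) ∈ K1C e f he hf n := Subgroup.subset_closure (by simp)
  have h3 : pc (mv1 e f he hf) ∈ K1C e f he hf n := Subgroup.subset_closure (by simp)
  have h4 := mul_mem (inv_mem h3) h2
  have h5 := mul_mem (mul_mem (inv_mem h4) h1) h4
  rw [← map_inv, ← map_mul, mvi_mu, ← map_pow, ← map_inv, ← map_mul, ← map_mul] at h5
  have e0 : (mx1 e f he hf)⁻¹ * mt1 e f ^ n * mx1 e f he hf = lo (n * ((e ^ 2 - 1) * f)) := by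
    have e1 : mt1 e f = up ((e ^ 2 - 1) * f) := rfl
    rw [e1, up_pow]
    unfold mx1 up lo
    rw [mx_inv, mx_mul, mx_mul]
    apply mx_congr
    · linear_combination (-1 : ℂ) * he
    · ring
    · linear_combination (-(n * ((e ^ 2 - 1) * f))) * he
    · linear_combination (-1 : ℂ) * he
  rwa [e0] at h5

/-- all subgroups of `PSL₂(ℂ)` which contain `K1C n` as a normal subgroup of finite index -/
theorem klein1 (hX : S_X1) (n : ℕ) (hn : 0 < n) (Γ : Subgroup PC) (hle : K1C e f he hf n ≤ Γ)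
    (hN : ((K1C e f he hf n).subgroupOf Γ).Normal)
    (hi : ((K1C e f he hf n).subgroupOf Γ).FiniteIndex) : ProfinitelyRigid Γ := by
  obtain ⟨e0⟩ := K1C_equiv e f he hf n hn
  refine over1X hX Γ ((K1C e f he hf n).subgroupOf Γ) n hn hN hi
    ⟨(Subgroup.subgroupOfEquivOfLe hle).trans e0.symm⟩ fun K hK hf' => ?_
  have hn' : (n : ℂ) ≠ 0 := by exact_mod_cast hn.ne'
  exact no_finite_normal' Γ (mul_ne_zero hn' (p_ne e f he hf))
    (mul_ne_zero hn' (p_ne e f he hf)) (hle (K1C_up e f he hf n)) (hle (K1C_lo e f he hf n)) K hK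
    hf'

/-! ### The matrix -/

theorem hyp1' (n : ℕ) (hn : 0 < n) : Hyp (AM (al1 ^ n)) := hyp1n n hn

/-- all groups without non-trivial finite normal subgroups which contain `GA β` as a normal subgroup of finite
index, if the matrix of `β ^ k` is conjugate to that of `al1 ^ n` -/
theorem gen1 (hX : S_X1) (β : MulAut F) (n k : ℕ) (hn : 0 < n) (hk : 0 < k) (X : GL (Fin 2) ℤ)
    (hb : X * AM β ^ k * X⁻¹ = AM al1 ^ n) (Γ : Type)
    [Group Γ] (N : Subgroup Γ) (hN : N.Normal) (hi : N.FiniteIndex) (e : N ≃* GA β)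
    (hK : ∀ K : Subgroup Γ, K.Normal → Finite K → K = ⊥) : ProfinitelyRigid Γ :=
  over_gen al1 hyp1' (fun Γ _ N n hn hN hi e hK => over1X hX Γ N n hn hN hi e hK) β n k hn hk X hb
    Γ N hN hi e hK

end Pool.Agent.F8.D1
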