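import Pool.Agent.Lib.MP_305fdd_al.F8.AB.DefsN2

/-!
# MP_305fdd_al, once-punctured torus bundles with monodromy `(L² R²)ⁿ` (invariant trace field `ℚ(i)`)

`E1 R = R[i]`, `i² = -1`; `O1 = E1 ℤ` is the ring of the Gaussian integers, `pp = 1 + i` the prime above two;
`K1 R = E1 R [f]`, `f² = 1 + i`; `S1 R = K1 R [e]`, `e² = i`; `Z1 = S1 ℤ = ℤ[e, f]` (`e⁴ = -1`, `f² = 1 + e²`).

`al1` is the automorphism `u ↦ u (v⁻¹ u³)²`, `v ↦ u v⁻¹ u³` of `F` (`u = ga`, `v = gb`; in the basis `x = v⁻¹ u`, `u`: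
`x ↦ x u u`, `u ↦ u x u u x u u`), `G1 = F ⋊ ℤ`. For `e`, `f` in a ring `R` with `e⁴ = -1`, `f² = 1 + e²` there is the
representation `rho1 e f : G1 → SL₂(R)`, and the involution `k` acts by `mk1 e`.

`NN1` is the group of the matrices `eʲ [[a, f b], [f c, d]]` and `eʲ [[f a, b], [c, f d]]`, `j = 0, 1`, `a, b, c, d ∈ O1`, of
determinant one; `NN1 / ±1` is the normaliser of `Γ₀(1 + i)` in `PGL₂(ℚ(i))`. The image of `G1` in it
has infinite index `8` (with `k`); it is determined modulo `(1 + i)³`: it is the subgroup `NQ1` of the elements which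
preserve the quadratic form `x² - y²` modulo `(1 + i)³`. Block G: `NQ1 / ±1` is isomorphic to
`N2A kp1 = G1 ⋊ C₂`.
-/

set_option autoImplicit false

namespace Pool.Agent.F8.D1

open Pool.Agent.MP_305fdd_al Pool.Agent.Lib.MP_305fdd_al Pool.Agent.F2X Pool.Agent.F8
  Pool.Agent.F8.HN Pool.Agent.F8.AB
open scoped QuadraticAlgebra

/-! ### The rings -/

/-- evaluation of a quadratic algebra at a root -/
def qev {R S : Type} [CommRing R] [CommRing S] {a b : R} (g : R →+* S) (x : S)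
    (hx : x * x = g a + g b * x) : QuadraticAlgebra R a b →+* S where
  toFun z := g z.re + g z.im * x
  map_one' := by simp
  map_zero' := by simp
  map_add' z w := by simp only [QuadraticAlgebra.re_add, QuadraticAlgebra.im_add, map_add]; ring
  map_mul' z w := by
    simp only [QuadraticAlgebra.re_mul, QuadraticAlgebra.im_mul, map_add, map_mul]
    linear_combination (-g z.im * g w.im) * hx

theorem qev_apply {R S : Type} [CommRing R] [CommRing S] {a b : R} (g : R →+* S) (x : S)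
    (hx : x * x = g a + g b * x) (z : QuadraticAlgebra R a b) :
    qev g x hx z = g z.re + g z.im * x := rfl

/-- `R[i]` (elements `⟨x, y⟩ = x + y i`) -/
abbrev E1 (R : Type) [CommRing R] : Type := QuadraticAlgebra R (-1) 0

/-- `i` -/
def ii (R : Type) [CommRing R] : E1 R := ⟨0, 1⟩

/-- `1 + i` -/
def pp (R : Type) [CommRing R] : E1 R := ⟨1, 1⟩

/-- `R[i][f]`, `f² = 1 + i` (elements `⟨x, y⟩ = x + y f`, `x, y ∈ R[i]`) -/
def K1 (R : Type) [CommRing R] : Type := QuadraticAlgebra (E1 R) (pp R) 0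

instance (R : Type) [CommRing R] : CommRing (K1 R) :=
  inferInstanceAs (CommRing (QuadraticAlgebra (E1 R) (pp R) 0))

/-- the element `x + y f` -/
def kk1 {R : Type} [CommRing R] (x y : E1 R) : K1 R := (⟨x, y⟩ : QuadraticAlgebra (E1 R) (pp R) 0)

/-- `i` -/
def ik (R : Type) [CommRing R] : K1 R := kk1 (ii R) 0

/-- `R[i][f][e]`, `e² = i` (elements `⟨x, y⟩ = x + y e`, `x, y ∈ R[i][f]`) -/
def S1 (R : Type) [CommRing R] : Type := QuadraticAlgebra (K1 R) (ik R) 0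

instance (R : Type) [CommRing R] : CommRing (S1 R) :=
  inferInstanceAs (CommRing (QuadraticAlgebra (K1 R) (ik R) 0))

/-- the element `x + y e` -/
def ks {R : Type} [CommRing R] (x y : K1 R) : S1 R := (⟨x, y⟩ : QuadraticAlgebra (K1 R) (ik R) 0)

instance (R : Type) [CommRing R] [DecidableEq R] : DecidableEq (K1 R) :=
  inferInstanceAs (DecidableEq (QuadraticAlgebra (E1 R) (pp R) 0))

instance (R : Type) [CommRing R] [DecidableEq R] : DecidableEq (S1 R) :=
  inferInstanceAs (DecidableEq (QuadraticAlgebra (K1 R) (ik R) 0))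

instance (R : Type) [CommRing R] [Finite R] : Finite (K1 R) :=
  have : Finite (E1 R) := Finite.of_equiv (R × R) (QuadraticAlgebra.equivProd (-1) 0).symm
  Finite.of_equiv (E1 R × E1 R) (QuadraticAlgebra.equivProd (pp R) 0).symm

instance (R : Type) [CommRing R] [Finite R] : Finite (S1 R) :=
  Finite.of_equiv (K1 R × K1 R) (QuadraticAlgebra.equivProd (ik R) 0).symm

section basic

variable {R : Type} [CommRing R]

/-- the coordinates -/
def K1.a (z : K1 R) : E1 R := QuadraticAlgebra.re z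
/-- the coordinates -/
def K1.b (z : K1 R) : E1 R := QuadraticAlgebra.im z
/-- the coordinates -/
def S1.a (z : S1 R) : K1 R := QuadraticAlgebra.re z
/-- the coordinates -/
def S1.b (z : S1 R) : K1 R := QuadraticAlgebra.im z

@[ext] theorem K1.ext {z w : K1 R} (h1 : z.a = w.a) (h2 : z.b = w.b) : z = w :=
  QuadraticAlgebra.ext h1 h2
@[ext] theorem S1.ext {z w : S1 R} (h1 : z.a = w.a) (h2 : z.b = w.b) : z = w :=
  QuadraticAlgebra.ext h1 h2

@[simp] theorem kk1_a (x y : E1 R) : (kk1 x y).a = x := rfl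
@[simp] theorem kk1_b (x y : E1 R) : (kk1 x y).b = y := rfl
@[simp] theorem ks_a (x y : K1 R) : (ks x y).a = x := rfl
@[simp] theorem ks_b (x y : K1 R) : (ks x y).b = y := rfl
theorem kk1_eta (z : K1 R) : kk1 z.a z.b = z := rfl
theorem ks_eta (z : S1 R) : ks z.a z.b = z := rfl

@[simp] theorem K1.zero_a : (0 : K1 R).a = 0 := rfl
@[simp] theorem K1.zero_b : (0 : K1 R).b = 0 := rfl
@[simp] theorem K1.one_a : (1 : K1 R).a = 1 := rfl
@[simp] theorem K1.one_b : (1 : K1 R).b = 0 := rfl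
@[simp] theorem K1.add_a (z w : K1 R) : (z + w).a = z.a + w.a := rfl
@[simp] theorem K1.add_b (z w : K1 R) : (z + w).b = z.b + w.b := rfl
@[simp] theorem K1.neg_a (z : K1 R) : (-z).a = -z.a := rfl
@[simp] theorem K1.neg_b (z : K1 R) : (-z).b = -z.b := rfl
@[simp] theorem K1.sub_a (z w : K1 R) : (z - w).a = z.a - w.a := rfl
@[simp] theorem K1.sub_b (z w : K1 R) : (z - w).b = z.b - w.b := rfl
theorem K1.mul_a (z w : K1 R) : (z * w).a = z.a * w.a + pp R * z.b * w.b := rfl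
theorem K1.mul_b (z w : K1 R) : (z * w).b = z.a * w.b + z.b * w.a := by
  have h : (z * w).b = z.a * w.b + z.b * w.a + 0 * z.b * w.b := rfl
  rw [h]; ring

@[simp] theorem S1.zero_a : (0 : S1 R).a = 0 := rfl
@[simp] theorem S1.zero_b : (0 : S1 R).b = 0 := rfl
@[simp] theorem S1.one_a : (1 : S1 R).a = 1 := rfl
@[simp] theorem S1.one_b : (1 : S1 R).b = 0 := rfl
@[simp] theorem S1.add_a (z w : S1 R) : (z + w).a = z.a + w.a := rfl
@[simp] theorem S1.add_b (z w : S1 R) : (z + w).b = z.b + w.b := rfl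
@[simp] theorem S1.neg_a (z : S1 R) : (-z).a = -z.a := rfl
@[simp] theorem S1.neg_b (z : S1 R) : (-z).b = -z.b := rfl
@[simp] theorem S1.sub_a (z w : S1 R) : (z - w).a = z.a - w.a := rfl
@[simp] theorem S1.sub_b (z w : S1 R) : (z - w).b = z.b - w.b := rfl
theorem S1.mul_a (z w : S1 R) : (z * w).a = z.a * w.a + ik R * z.b * w.b := rfl
theorem S1.mul_b (z w : S1 R) : (z * w).b = z.a * w.b + z.b * w.a := by
  have h : (z * w).b = z.a * w.b + z.b * w.a + 0 * z.b * w.b := rfl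
  rw [h]; ring

end basic

/-- `e` -/
def ee (R : Type) [CommRing R] : S1 R := ks 0 1

/-- `f` -/
def ff (R : Type) [CommRing R] : S1 R := ks (kk1 0 1) 0

/-- the Gaussian integers -/
abbrev O1 : Type := E1 ℤ

/-- `ℤ[e, f]` -/
abbrev Z1 : Type := S1 ℤ

/-- the embedding of `R[i]` -/
def c1 (R : Type) [CommRing R] : E1 R →+* S1 R where
  toFun z := ks (kk1 z 0) 0
  map_one' := rfl
  map_zero' := rfl
  map_add' x y := by
    apply S1.ext
    · apply K1.ext
      · rfl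
      · simp
    · simp
  map_mul' x y := by
    apply S1.ext
    · rw [S1.mul_a]
      apply K1.ext
      · simp [K1.mul_a]
      · simp [K1.mul_b]
    · rw [S1.mul_b]; simp

theorem c1_apply {R : Type} [CommRing R] (z : E1 R) : c1 R z = ks (kk1 z 0) 0 := rfl

theorem ii_sq (R : Type) [CommRing R] : ii R * ii R = -1 := by
  apply QuadraticAlgebra.ext
  · simp [ii]
  · simp [ii]

theorem pp_eq (R : Type) [CommRing R] : pp R = 1 + ii R := by
  apply QuadraticAlgebra.ext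
  · simp [ii, pp]
  · simp [ii, pp]

theorem ee_sq (R : Type) [CommRing R] : ee R ^ 2 = c1 R (ii R) := by
  rw [pow_two]
  apply S1.ext
  · rw [S1.mul_a]
    apply K1.ext
    · simp [ee, c1_apply, ik]
    · simp [ee, c1_apply, ik]
  · rw [S1.mul_b]
    simp [ee, c1_apply]

theorem ff_sq (R : Type) [CommRing R] : ff R ^ 2 = c1 R (pp R) := by
  rw [pow_two]
  apply S1.ext
  · rw [S1.mul_a]
    apply K1.ext
    · simp [ff, c1_apply, K1.mul_a]
    · simp [ff, c1_apply, K1.mul_b]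
  · rw [S1.mul_b]
    simp [ff, c1_apply]

theorem ee_eq (R : Type) [CommRing R] : ee R ^ 4 + 1 = 0 := by
  have h : ee R ^ 4 = ee R ^ 2 * ee R ^ 2 := by ring
  rw [h, ee_sq, ← map_mul, ii_sq, map_neg, map_one, neg_add_cancel]

theorem ff_eq (R : Type) [CommRing R] : ff R ^ 2 = 1 + ee R ^ 2 := by
  have h : c1 R (pp R) = c1 R (1 + ii R) := congrArg (c1 R) (pp_eq R)
  rw [ff_sq, ee_sq, h, map_add, map_one]

/-- evaluation of `R[i]` at a root of `-1` -/
def ev1 {R S : Type} [CommRing R] [CommRing S] (g : R →+* S) (i : S) (hi : i * i = -1) :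
    E1 R →+* S := qev g i (by rw [map_neg, map_one, map_zero, zero_mul, add_zero, hi])

theorem ev1_apply {R S : Type} [CommRing R] [CommRing S] (g : R →+* S) (i : S) (hi : i * i = -1)
    (z : E1 R) : ev1 g i hi z = g z.re + g z.im * i := rfl

/-- evaluation of `R[i][f]` -/
def evk {R S : Type} [CommRing R] [CommRing S] (g : R →+* S) (i f : S) (hi : i * i = -1)
    (hf : f ^ 2 = 1 + i) : K1 R →+* S := qev (ev1 g i hi) f (by
  rw [map_zero, zero_mul, add_zero, pp_eq, map_add, map_one, ev1_apply]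
  simp only [ii, map_zero, map_one, zero_add, one_mul]
  rw [← hf, pow_two])

theorem evk_apply {R S : Type} [CommRing R] [CommRing S] (g : R →+* S) (i f : S) (hi : i * i = -1)
    (hf : f ^ 2 = 1 + i) (z : K1 R) :
    evk g i f hi hf z = ev1 g i hi z.a + ev1 g i hi z.b * f := rfl

/-- evaluation of `S1 R` at `e, f` with `e⁴ = -1`, `f² = 1 + e²` -/
def evs {R S : Type} [CommRing R] [CommRing S] (g : R →+* S) (e f : S) (he : e ^ 4 + 1 = 0)
    (hf : f ^ 2 = 1 + e ^ 2) : S1 R →+* S :=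
  qev (evk g (e ^ 2) f (by linear_combination he) hf) e (by
    rw [map_zero, zero_mul, add_zero, evk_apply]
    simp only [ik, kk1_a, kk1_b]
    rw [map_zero, zero_mul, add_zero, ev1_apply]
    simp only [ii, map_zero, map_one, zero_add, one_mul]
    rw [← pow_two])

theorem evs_apply {R S : Type} [CommRing R] [CommRing S] (g : R →+* S) (e f : S)
    (he : e ^ 4 + 1 = 0) (hf : f ^ 2 = 1 + e ^ 2) (z : S1 R) : evs g e f he hf z =
      evk g (e ^ 2) f (by linear_combination he) hf z.a +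
      evk g (e ^ 2) f (by linear_combination he) hf z.b * e := rfl

theorem evs_ee {R S : Type} [CommRing R] [CommRing S] (g : R →+* S) (e f : S)
    (he : e ^ 4 + 1 = 0) (hf : f ^ 2 = 1 + e ^ 2) : evs g e f he hf (ee R) = e := by
  rw [evs_apply]
  simp only [ee, ks_a, ks_b, map_zero, map_one, zero_add, one_mul]

theorem evs_ff {R S : Type} [CommRing R] [CommRing S] (g : R →+* S) (e f : S)
    (he : e ^ 4 + 1 = 0) (hf : f ^ 2 = 1 + e ^ 2) : evs g e f he hf (ff R) = f := by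
  rw [evs_apply]
  simp only [ff, ks_a, ks_b, map_zero, zero_mul, add_zero]
  rw [evk_apply]
  simp only [kk1_a, kk1_b, map_zero, map_one, zero_add, one_mul]

/-- base change -/
def E1m {R S : Type} [CommRing R] [CommRing S] (g : R →+* S) : E1 R →+* E1 S where
  toFun z := ⟨g z.re, g z.im⟩
  map_one' := by ext <;> simp
  map_zero' := by ext <;> simp
  map_add' x y := by ext <;> simp
  map_mul' x y := by
    apply QuadraticAlgebra.ext
    · simp only [QuadraticAlgebra.re_mul, map_add, map_mul, map_neg, map_one]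
    · simp only [QuadraticAlgebra.im_mul, map_add, map_mul, map_zero]

theorem E1m_apply {R S : Type} [CommRing R] [CommRing S] (g : R →+* S) (z : E1 R) :
    E1m g z = ⟨g z.re, g z.im⟩ := rfl

/-- base change -/
def S1m {R S : Type} [CommRing R] [CommRing S] (g : R →+* S) : S1 R →+* S1 S :=
  evs ((c1 S).comp ((algebraMap S (E1 S)).comp g)) (ee S) (ff S) (ee_eq S) (ff_eq S)

/-! ### The group `G1` -/

/-- the monodromy: `u ↦ u (v⁻¹ u³)²`, `v ↦ u v⁻¹ u³` -/
def al1 : MulAut F := mkA (ga * gb⁻¹ * ga * ga * ga * gb⁻¹ * ga * ga * ga) (ga * gb⁻¹ * ga * ga * ga)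
  (gb * ga⁻¹ * gb) (gb * ga⁻¹ * gb * gb * ga⁻¹ * gb * gb * ga⁻¹ * gb * ga⁻¹ * gb)
  (by simp [mul_assoc]) (by simp [mul_assoc]) (by simp [mul_assoc]) (by simp [mul_assoc])

theorem al1_ga : al1 ga = ga * gb⁻¹ * ga * ga * ga * gb⁻¹ * ga * ga * ga := by
  unfold al1; rw [mkA_apply, lf_ga]
theorem al1_gb : al1 gb = ga * gb⁻¹ * ga * ga * ga := by
  unfold al1; rw [mkA_apply, lf_gb]

/-- in the basis `x = v⁻¹ u`, `u`: `x ↦ x u u` -/
theorem al1_x : al1 x0 = x0 * ga * ga := by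
  unfold x0; rw [map_mul, map_inv, al1_ga, al1_gb]; group

/-- in the basis `x = v⁻¹ u`, `u`: `u ↦ u x u u x u u` -/
theorem al1_u : al1 ga = ga * x0 * ga * ga * x0 * ga * ga := by
  unfold x0; rw [al1_ga]; group

/-- `F ⋊ ℤ` -/
abbrev G1 : Type := GA al1

/-- the condition for the involution: `iot ∘ al1 ∘ iot = conj (u²) ∘ al1` -/
theorem kp1 : Kp al1 (ga * ga) where
  a := by
    rw [map_inv, al1_ga]
    simp only [map_mul, map_inv, iot_ga, iot_gb]
    simp [mul_assoc]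
  b := by
    rw [map_inv, al1_gb]
    simp only [map_mul, map_inv, iot_ga, iot_gb]
    simp [mul_assoc]
  c := by
    simp only [map_mul, iot_ga]
    group

/-! ### The representation -/

section rep

variable {R S : Type} [CommRing R] [CommRing S]

/-- `t = [[1, (i - 1) f], [0, 1]]` -/
def mt1 (e f : R) : SL2 R := mx 1 ((e ^ 2 - 1) * f) 0 1 (by ring)

/-- `u = [[-e³ f, -e³], [e³, e f]]` -/
def mu1 (e f : R) (he : e ^ 4 + 1 = 0) (hf : f ^ 2 = 1 + e ^ 2) : SL2 R :=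
  mx (-(e ^ 3 * f)) (-e ^ 3) (e ^ 3) (e * f) (by
    linear_combination (e ^ 2 - f ^ 2) * he + hf)

/-- `v = [[-e, e³ f], [-e³ f, -e]]` -/
def mv1 (e f : R) (he : e ^ 4 + 1 = 0) (hf : f ^ 2 = 1 + e ^ 2) : SL2 R :=
  mx (-e) (e ^ 3 * f) (-(e ^ 3 * f)) (-e) (by
    linear_combination (e ^ 2 * f ^ 2 - 1) * he - e ^ 2 * hf)

/-- `k = [[0, i], [i, 0]]`, `k² = -1` -/
def mk1 (e : R) (he : e ^ 4 + 1 = 0) : SL2 R :=
  mx 0 (e ^ 2) (e ^ 2) 0 (by linear_combination (-1 : R) * he)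

/-- `x = v⁻¹ u` -/
def mx1 (e f : R) (he : e ^ 4 + 1 = 0) (_hf : f ^ 2 = 1 + e ^ 2) : SL2 R :=
  mx (e ^ 2 * f - f) (e ^ 2) (e ^ 2) 0 (by
      linear_combination (-1) * he)

theorem mvi_mu (e f : R) (he : e ^ 4 + 1 = 0) (hf : f ^ 2 = 1 + e ^ 2) :
    (mv1 e f he hf)⁻¹ * mu1 e f he hf = mx1 e f he hf := by
  unfold mv1 mu1 mx1
  rw [mx_inv, mx_mul]
  apply mx_congr
  · linear_combination (-e ^ 2 * f + f) * he
  · linear_combination (-e ^ 2) * he + (-e ^ 4) * hf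
  · linear_combination (-e ^ 4 - e ^ 2) * he + (-e ^ 6) * hf
  · linear_combination (-e ^ 2 * f) * he

/-- `u x` -/
def w1 (e f : R) (he : e ^ 4 + 1 = 0) (hf : f ^ 2 = 1 + e ^ 2) : SL2 R :=
  mx (2 * e ^ 3 + e) (e * f) (-e * f) (-e) (by
      linear_combination (-1) * he + (e ^ 2) * hf)

theorem w1_eq (e f : R) (he : e ^ 4 + 1 = 0) (hf : f ^ 2 = 1 + e ^ 2) :
    mu1 e f he hf * mx1 e f he hf = w1 e f he hf := by
  unfold mu1 mx1 w1
  rw [mx_mul]
  apply mx_congr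
  · linear_combination (-e ^ 3 - e) * he + (-e ^ 5 + e ^ 3) * hf
  · linear_combination (-e * f) * he
  · linear_combination (e * f) * he
  · linear_combination (e) * he

/-- `u x u` -/
def w2 (e f : R) (he : e ^ 4 + 1 = 0) (hf : f ^ 2 = 1 + e ^ 2) : SL2 R :=
  mx (2 * e ^ 2 * f) (3 * e ^ 2) (-e ^ 2) (-e ^ 2 * f - f) (by
      linear_combination (-2 * e ^ 2 - 1) * he + (-2 * e ^ 4 - 2 * e ^ 2) * hf)

theorem w2_eq (e f : R) (he : e ^ 4 + 1 = 0) (hf : f ^ 2 = 1 + e ^ 2) :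
    w1 e f he hf * mu1 e f he hf = w2 e f he hf := by
  unfold w1 mu1 w2
  rw [mx_mul]
  apply mx_congr
  · linear_combination (-2 * e ^ 2 * f) * he
  · linear_combination (-2 * e ^ 2) * he + (e ^ 2) * hf
  · linear_combination (e ^ 2) * he + (e ^ 4) * hf
  · linear_combination (f) * he

/-- `u x u u` -/
def w3 (e f : R) (he : e ^ 4 + 1 = 0) (hf : f ^ 2 = 1 + e ^ 2) : SL2 R :=
  mx (2 * e ^ 3 - e) (3 * e ^ 3 * f + 2 * e * f) (-e ^ 3 * f) (-2 * e ^ 3 - e) (by
      linear_combination (3 * e ^ 4 + e ^ 2 - 1) * he + (3 * e ^ 6 + 2 * e ^ 4) * hf)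

theorem w3_eq (e f : R) (he : e ^ 4 + 1 = 0) (hf : f ^ 2 = 1 + e ^ 2) :
    w2 e f he hf * mu1 e f he hf = w3 e f he hf := by
  unfold w2 mu1 w3
  rw [mx_mul]
  apply mx_congr
  · linear_combination (-2 * e ^ 3 + e) * he + (-2 * e ^ 5) * hf
  · linear_combination (-2 * e * f) * he
  · ring
  · linear_combination (-e ^ 3 - e) * hf

/-- `u x u u x` -/
def w4 (e f : R) (he : e ^ 4 + 1 = 0) (hf : f ^ 2 = 1 + e ^ 2) : SL2 R :=
  mx (-e ^ 3 * f - 4 * e * f) (-e ^ 3 - 2 * e) (e ^ 3 + 2 * e) (e * f) (by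
      linear_combination (-1) * he + (-e ^ 4 - 4 * e ^ 2) * hf)

theorem w4_eq (e f : R) (he : e ^ 4 + 1 = 0) (hf : f ^ 2 = 1 + e ^ 2) :
    w3 e f he hf * mx1 e f he hf = w4 e f he hf := by
  unfold w3 mx1 w4
  rw [mx_mul]
  apply mx_congr
  · linear_combination (5 * e * f) * he
  · linear_combination (2 * e) * he
  · linear_combination (-e ^ 3 - 2 * e) * he + (-e ^ 5 + e ^ 3) * hf
  · linear_combination (-e * f) * he

/-- `u x u u x u` -/
def w5 (e f : R) (he : e ^ 4 + 1 = 0) (hf : f ^ 2 = 1 + e ^ 2) : SL2 R :=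
  mx (-4 * e ^ 2 - 1) (-3 * e ^ 2 * f - 3 * f) (e ^ 2 * f + f) (2 * e ^ 2 + 1) (by
      linear_combination (3 * e ^ 2 + 1) * he + (3 * e ^ 4 + 6 * e ^ 2 + 3) * hf)

theorem w5_eq (e f : R) (he : e ^ 4 + 1 = 0) (hf : f ^ 2 = 1 + e ^ 2) :
    w4 e f he hf * mu1 e f he hf = w5 e f he hf := by
  unfold w4 mu1 w5
  rw [mx_mul]
  apply mx_congr
  · linear_combination (e ^ 4 + 4 * e ^ 2 + 1) * he + (e ^ 6 + 4 * e ^ 4) * hf
  · linear_combination (e ^ 2 * f + 3 * f) * he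
  · linear_combination (-e ^ 2 * f - f) * he
  · linear_combination (-e ^ 2 - 1) * he + (e ^ 2) * hf

/-- `u x u u x u u` -/
def w6 (e f : R) (he : e ^ 4 + 1 = 0) (hf : f ^ 2 = 1 + e ^ 2) : SL2 R :=
  mx (-2 * e ^ 3 * f - e * f) (-5 * e ^ 3 - 4 * e) (e ^ 3) (e ^ 3 * f + 2 * e * f) (by
      linear_combination (-2 * e ^ 4 - 2 * e ^ 2 - 1) * he + (-2 * e ^ 6 - 5 * e ^ 4 - 2 * e ^ 2) * hf)

theorem w6_eq (e f : R) (he : e ^ 4 + 1 = 0) (hf : f ^ 2 = 1 + e ^ 2) :
    w5 e f he hf * mu1 e f he hf = w6 e f he hf := by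
  unfold w5 mu1 w6
  rw [mx_mul]
  apply mx_congr
  · linear_combination (e * f) * he
  · linear_combination (e) * he + (-3 * e ^ 3 - 3 * e) * hf
  · linear_combination (-e ^ 3) * he + (-e ^ 5 - e ^ 3) * hf
  · linear_combination (-e * f) * he

/-- `u u` -/
def w7 (e f : R) (he : e ^ 4 + 1 = 0) (hf : f ^ 2 = 1 + e ^ 2) : SL2 R :=
  mx 1 (-e ^ 2 * f + f) (e ^ 2 * f - f) (2 * e ^ 2 - 1) (by
      linear_combination (e ^ 2 - 1) * he + (e ^ 4 - 2 * e ^ 2 + 1) * hf)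

theorem w7_eq (e f : R) (he : e ^ 4 + 1 = 0) (hf : f ^ 2 = 1 + e ^ 2) :
    mu1 e f he hf * mu1 e f he hf = w7 e f he hf := by
  unfold mu1 w7
  rw [mx_mul]
  apply mx_congr
  · linear_combination (e ^ 4 - 1) * he + (e ^ 6) * hf
  · linear_combination (e ^ 2 * f - f) * he
  · linear_combination (-e ^ 2 * f + f) * he
  · linear_combination (-e ^ 2 + 1) * he + (e ^ 2) * hf

/-- `u v` -/
def w8 (e f : R) (he : e ^ 4 + 1 = 0) (hf : f ^ 2 = 1 + e ^ 2) : SL2 R :=
  mx (-e ^ 2 * f - f) (e ^ 2 - 2) (e ^ 2 + 2) (-2 * e ^ 2 * f) (by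
      linear_combination (2 * e ^ 2 + 3) * he + (2 * e ^ 4 + 2 * e ^ 2) * hf)

theorem w8_eq (e f : R) (he : e ^ 4 + 1 = 0) (hf : f ^ 2 = 1 + e ^ 2) :
    mu1 e f he hf * mv1 e f he hf = w8 e f he hf := by
  unfold mu1 mv1 w8
  rw [mx_mul]
  apply mx_congr
  · linear_combination (e ^ 2 * f + f) * he
  · linear_combination (-e ^ 4 - e ^ 2 + 2) * he + (-e ^ 6) * hf
  · linear_combination (-e ^ 2 - 2) * he + (-e ^ 4) * hf
  · linear_combination (e ^ 2 * f) * he

/-- `v u` -/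
def w9 (e f : R) (he : e ^ 4 + 1 = 0) (hf : f ^ 2 = 1 + e ^ 2) : SL2 R :=
  mx (-e ^ 2 * f - f) (-e ^ 2 - 2) (-e ^ 2 + 2) (-2 * e ^ 2 * f) (by
      linear_combination (2 * e ^ 2 + 3) * he + (2 * e ^ 4 + 2 * e ^ 2) * hf)

theorem w9_eq (e f : R) (he : e ^ 4 + 1 = 0) (hf : f ^ 2 = 1 + e ^ 2) :
    mv1 e f he hf * mu1 e f he hf = w9 e f he hf := by
  unfold mv1 mu1 w9
  rw [mx_mul]
  apply mx_congr
  · linear_combination (e ^ 2 * f + f) * he
  · linear_combination (e ^ 2 + 2) * he + (e ^ 4) * hf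
  · linear_combination (e ^ 4 + e ^ 2 - 2) * he + (e ^ 6) * hf
  · linear_combination (e ^ 2 * f) * he

/-- `t v = u x u u t` -/
theorem mt_mv (e f : R) (he : e ^ 4 + 1 = 0) (hf : f ^ 2 = 1 + e ^ 2) : mt1 e f * mv1 e f he hf = w3 e f he hf * mt1 e f := by
  unfold mt1 mv1 w3
  rw [mx_mul, mx_mul]
  apply mx_congr
  · linear_combination (-e ^ 3) * he + (-e ^ 5 + e ^ 3) * hf
  · linear_combination (-2 * e * f) * he
  · ring
  · linear_combination (e ^ 3) * he + (e ^ 5 - e ^ 3) * hf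

/-- `t u = u x u u x u u t` -/
theorem mt_mu (e f : R) (he : e ^ 4 + 1 = 0) (hf : f ^ 2 = 1 + e ^ 2) : mt1 e f * mu1 e f he hf = w6 e f he hf * mt1 e f := by
  unfold mt1 mu1 w6
  rw [mx_mul, mx_mul]
  apply mx_congr
  · linear_combination (e * f) * he
  · linear_combination (2 * e ^ 3 + 2 * e) * he + (2 * e ^ 5 - 2 * e) * hf
  · ring
  · linear_combination (-e * f) * he

/-- `k² = -1` -/
theorem mk_sq (e : R) (he : e ^ 4 + 1 = 0) : mk1 e he * mk1 e he = -1 := by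
  unfold mk1
  rw [mx_mul, mx_one, mx_neg]
  apply mx_congr
  · linear_combination (1) * he
  · ring
  · ring
  · linear_combination (1) * he

/-- `k u = u⁻¹ k` -/
theorem mk_mu (e f : R) (he : e ^ 4 + 1 = 0) (hf : f ^ 2 = 1 + e ^ 2) : mk1 e he * mu1 e f he hf = (mu1 e f he hf)⁻¹ * mk1 e he := by
  unfold mk1 mu1
  rw [mx_inv, mx_mul, mx_mul]
  apply mx_congr
  · ring
  · ring
  · ring
  · ring

/-- `k v = v⁻¹ k` -/
theorem mk_mv (e f : R) (he : e ^ 4 + 1 = 0) (hf : f ^ 2 = 1 + e ^ 2) : mk1 e he * mv1 e f he hf = (mv1 e f he hf)⁻¹ * mk1 e he := by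
  unfold mk1 mv1
  rw [mx_inv, mx_mul, mx_mul]
  apply mx_congr
  · ring
  · ring
  · ring
  · ring

/-- `k t = u² t k` -/
theorem mk_mt (e f : R) (he : e ^ 4 + 1 = 0) (hf : f ^ 2 = 1 + e ^ 2) : mk1 e he * mt1 e f =
    mu1 e f he hf * mu1 e f he hf * mt1 e f * mk1 e he := by
  rw [w7_eq]
  unfold mk1 w7 mt1
  rw [mx_mul, mx_mul, mx_mul]
  apply mx_congr
  · ring
  · ring
  · linear_combination (-e ^ 4 + e ^ 2) * he + (-e ^ 6 + 2 * e ^ 4 - e ^ 2) * hf
  · ring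

/-- the trace of the commutator -/
theorem tr_comm1 (e f : R) (he : e ^ 4 + 1 = 0) (hf : f ^ 2 = 1 + e ^ 2) :
    tr (mu1 e f he hf * mv1 e f he hf * (mu1 e f he hf)⁻¹ * (mv1 e f he hf)⁻¹) = -2 := by
  have h3 : mu1 e f he hf * mv1 e f he hf * (mu1 e f he hf)⁻¹ * (mv1 e f he hf)⁻¹ =
      (mu1 e f he hf * mv1 e f he hf) * (mv1 e f he hf * mu1 e f he hf)⁻¹ := by
    simp only [mul_inv_rev, mul_assoc]
  rw [h3, w8_eq, w9_eq]
  unfold w8 w9
  rw [mx_inv, mx_mul, mx_tr]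
  linear_combination (4 * e ^ 2 + 10) * he + (4 * e ^ 4 + 4 * e ^ 2) * hf

/-- the representation of `F` -/
def rF1 (e f : R) (he : e ^ 4 + 1 = 0) (hf : f ^ 2 = 1 + e ^ 2) : F →* SL2 R :=
  liF (mu1 e f he hf) (mv1 e f he hf)

theorem rF1_ga (e f : R) (he : e ^ 4 + 1 = 0) (hf : f ^ 2 = 1 + e ^ 2) :
    rF1 e f he hf ga = mu1 e f he hf := liF_ga _ _
theorem rF1_gb (e f : R) (he : e ^ 4 + 1 = 0) (hf : f ^ 2 = 1 + e ^ 2) :
    rF1 e f he hf gb = mv1 e f he hf := liF_gb _ _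

theorem rF1_x0 (e f : R) (he : e ^ 4 + 1 = 0) (hf : f ^ 2 = 1 + e ^ 2) :
    rF1 e f he hf x0 = mx1 e f he hf := by
  unfold x0
  rw [map_mul, map_inv, rF1_ga, rF1_gb, mvi_mu]

theorem rF1_al (e f : R) (he : e ^ 4 + 1 = 0) (hf : f ^ 2 = 1 + e ^ 2) (w : F) :
    rF1 e f he hf (al1 w) = mt1 e f * rF1 e f he hf w * (mt1 e f)⁻¹ := by
  apply compat
  · rw [al1_u]
    simp only [map_mul, rF1_ga, rF1_x0]
    rw [w1_eq, w2_eq, w3_eq, w4_eq, w5_eq, w6_eq, mt_mu e f he hf, mul_inv_cancel_right]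
  · have h : al1 gb = ga * x0 * ga * ga := by
      unfold x0; rw [al1_gb]; group
    rw [h]
    simp only [map_mul, rF1_ga, rF1_x0, rF1_gb]
    rw [w1_eq, w2_eq, w3_eq, mt_mv, mul_inv_cancel_right]

/-- the representation of `G1` given by `e`, `f` -/
def rho1 (e f : R) (he : e ^ 4 + 1 = 0) (hf : f ^ 2 = 1 + e ^ 2) : G1 →* SL2 R :=
  liftA (rF1 e f he hf) (mt1 e f) (rF1_al e f he hf)

theorem rho1_iA (e f : R) (he : e ^ 4 + 1 = 0) (hf : f ^ 2 = 1 + e ^ 2) (w : F) :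
    rho1 e f he hf (iA al1 w) = rF1 e f he hf w := liftA_iA _ _ _ _
theorem rho1_tA (e f : R) (he : e ^ 4 + 1 = 0) (hf : f ^ 2 = 1 + e ^ 2) :
    rho1 e f he hf (tA al1) = mt1 e f := liftA_tA _ _ _

theorem map_he (g : R →+* S) {e : R} (he : e ^ 4 + 1 = 0) : g e ^ 4 + 1 = 0 := by
  have h := congrArg g he
  rw [map_add, map_pow, map_one, map_zero] at h
  exact h

theorem map_hf (g : R →+* S) {e f : R} (hf : f ^ 2 = 1 + e ^ 2) : g f ^ 2 = 1 + g e ^ 2 := by
  have h := congrArg g hf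
  rw [map_add, map_pow, map_pow, map_one] at h
  exact h

theorem map_mu1 (g : R →+* S) (e f : R) (he : e ^ 4 + 1 = 0) (hf : f ^ 2 = 1 + e ^ 2) :
    SLm g (mu1 e f he hf) = mu1 (g e) (g f) (map_he g he) (map_hf g hf) := by
  unfold mu1
  rw [mx_map]
  apply mx_congr <;> simp only [map_mul, map_neg, map_pow]

theorem map_mv1 (g : R →+* S) (e f : R) (he : e ^ 4 + 1 = 0) (hf : f ^ 2 = 1 + e ^ 2) :
    SLm g (mv1 e f he hf) = mv1 (g e) (g f) (map_he g he) (map_hf g hf) := by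
  unfold mv1
  rw [mx_map]
  apply mx_congr <;> simp only [map_mul, map_neg, map_pow]

theorem map_mt1 (g : R →+* S) (e f : R) : SLm g (mt1 e f) = mt1 (g e) (g f) := by
  unfold mt1
  rw [mx_map]
  apply mx_congr <;> simp only [map_zero, map_one, map_mul, map_sub, map_pow]

theorem map_mk1 (g : R →+* S) (e : R) (he : e ^ 4 + 1 = 0) :
    SLm g (mk1 e he) = mk1 (g e) (map_he g he) := by
  unfold mk1
  rw [mx_map]
  apply mx_congr <;> simp only [map_zero, map_pow]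

theorem map_rho1 (g : R →+* S) (e f : R) (he : e ^ 4 + 1 = 0) (hf : f ^ 2 = 1 + e ^ 2) :
    (SLm g).comp (rho1 e f he hf) = rho1 (g e) (g f) (map_he g he) (map_hf g hf) := by
  apply homA_ext'
  · show SLm g (rho1 e f he hf (iA al1 ga)) = _
    rw [rho1_iA, rho1_iA, rF1_ga, rF1_ga, map_mu1]
  · show SLm g (rho1 e f he hf (iA al1 gb)) = _
    rw [rho1_iA, rho1_iA, rF1_gb, rF1_gb, map_mv1]
  · show SLm g (rho1 e f he hf (tA al1)) = _
    rw [rho1_tA, rho1_tA, map_mt1]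

/-- on `F` -/
theorem map_rF1 (g : R →+* S) (e f : R) (he : e ^ 4 + 1 = 0) (hf : f ^ 2 = 1 + e ^ 2) (w : F) :
    SLm g (rF1 e f he hf w) = rF1 (g e) (g f) (map_he g he) (map_hf g hf) w := by
  rw [← rho1_iA, ← rho1_iA, ← map_rho1]; rfl

end rep

/-- the representation of `GA (al1 ^ n)` over `Z1` -/
def r1 (n : ℕ) : GA (al1 ^ n) →* SL2 Z1 :=
  (rho1 (ee ℤ) (ff ℤ) (ee_eq ℤ) (ff_eq ℤ)).comp (toA al1 n)

theorem r1_iA (n : ℕ) (w : F) : r1 n (iA (al1 ^ n) w) = rF1 (ee ℤ) (ff ℤ) (ee_eq ℤ) (ff_eq ℤ) w := by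
  show rho1 _ _ _ _ (toA al1 n (iA (al1 ^ n) w)) = _
  rw [toA_iA, rho1_iA]

theorem r1_tA (n : ℕ) : r1 n (tA (al1 ^ n)) = mt1 (ee ℤ) (ff ℤ) ^ n := by
  show rho1 _ _ _ _ (toA al1 n (tA (al1 ^ n))) = _
  rw [toA_tA, map_pow, rho1_tA]

/-! ### The groups `NN1` and `NQ1` -/

/-- the automorphism `e ↦ e`, `f ↦ -f` -/
def sf (R : Type) [CommRing R] : S1 R →+* S1 R where
  toFun z := ks (kk1 z.a.a (-z.a.b)) (kk1 z.b.a (-z.b.b))
  map_one' := by
    apply S1.ext <;> apply K1.ext <;> simp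
  map_zero' := by
    apply S1.ext <;> apply K1.ext <;> simp
  map_add' x y := by
    apply S1.ext <;> apply K1.ext <;> simp <;> ring
  map_mul' x y := by
    apply S1.ext <;> apply K1.ext
    · simp [S1.mul_a, K1.mul_a, ik, K1.mul_b]
    · simp [S1.mul_a, K1.mul_a, ik, K1.mul_b]; ring
    · simp [S1.mul_b, K1.mul_a, K1.mul_b]
    · simp [S1.mul_b, K1.mul_a, K1.mul_b]; ring

/-- the automorphism `e ↦ -e`, `f ↦ f` -/
def se (R : Type) [CommRing R] : S1 R →+* S1 R where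
  toFun z := ks z.a (-z.b)
  map_one' := by
    apply S1.ext <;> simp
  map_zero' := by
    apply S1.ext <;> simp
  map_add' x y := by
    apply S1.ext
    · simp
    · simp; ring
  map_mul' x y := by
    apply S1.ext
    · simp [S1.mul_a]
    · simp [S1.mul_b]; ring

theorem sf_apply {R : Type} [CommRing R] (z : S1 R) :
    sf R z = ks (kk1 z.a.a (-z.a.b)) (kk1 z.b.a (-z.b.b)) := rfl
theorem se_apply {R : Type} [CommRing R] (z : S1 R) : se R z = ks z.a (-z.b) := rfl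

theorem sf_ff (R : Type) [CommRing R] : sf R (ff R) = -ff R := by
  apply S1.ext <;> apply K1.ext <;> simp [sf_apply, ff]
theorem sf_ee (R : Type) [CommRing R] : sf R (ee R) = ee R := by
  apply S1.ext <;> apply K1.ext <;> simp [sf_apply, ee]
theorem se_ff (R : Type) [CommRing R] : se R (ff R) = ff R := by
  apply S1.ext <;> apply K1.ext <;> simp [se_apply, ff]
theorem se_ee (R : Type) [CommRing R] : se R (ee R) = -ee R := by
  apply S1.ext <;> apply K1.ext <;> simp [se_apply, ee]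

/-- the matrices with `σ g = ± g` -/
def NS {R : Type} [CommRing R] (σ : R →+* R) : Subgroup (SL2 R) where
  carrier := {g | SLm σ g = g ∨ SLm σ g = -g}
  one_mem' := Or.inl (map_one _)
  mul_mem' := by
    rintro g h (hg | hg) (hh | hh)
    · left; rw [map_mul, hg, hh]
    · right; rw [map_mul, hg, hh, mul_neg]
    · right; rw [map_mul, hg, hh, neg_mul]
    · left; rw [map_mul, hg, hh, neg_mul_neg]
  inv_mem' := by
    rintro g (hg | hg)
    · left; rw [map_inv, hg]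
    · right
      rw [map_inv, hg]
      apply inv_eq_of_mul_eq_one_left
      rw [neg_mul_neg, inv_mul_cancel]

/-- The matrices which preserve the quadratic form `x² - y²` modulo `c`. -/
def NQ {R : Type} [CommRing R] (c : R) : Subgroup (SL2 R) where
  carrier := {g | ∀ x y : R, c ∣ ((x * g.val 0 0 + y * g.val 1 0) ^ 2 -
    (x * g.val 0 1 + y * g.val 1 1) ^ 2) - (x ^ 2 - y ^ 2)}
  one_mem' x y := by
    have h : ((x * (1 : SL2 R).val 0 0 + y * (1 : SL2 R).val 1 0) ^ 2 -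
      (x * (1 : SL2 R).val 0 1 + y * (1 : SL2 R).val 1 1) ^ 2) - (x ^ 2 - y ^ 2) = 0 := by
      rw [mx_one]
      simp only [mx_00, mx_01, mx_10, mx_11]
      ring
    rw [h]
    exact dvd_zero c
  mul_mem' := by
    intro g h hg hh x y
    have h1 := hg x y
    have h2 := hh (x * g.val 0 0 + y * g.val 1 0) (x * g.val 0 1 + y * g.val 1 1)
    have h3 := dvd_add h1 h2
    rw [G.SL_mul, G.SL_mul, G.SL_mul, G.SL_mul]
    convert h3 using 1
    ring
  inv_mem' := by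
    intro g hg x y
    have h1 := hg (x * g.val 1 1 + y * -g.val 1 0) (x * -g.val 0 1 + y * g.val 0 0)
    have hd := G.SL_det g
    have e1 : (x * g.val 1 1 + y * -g.val 1 0) * g.val 0 0 +
        (x * -g.val 0 1 + y * g.val 0 0) * g.val 1 0 = x := by linear_combination x * hd
    have e2 : (x * g.val 1 1 + y * -g.val 1 0) * g.val 0 1 +
        (x * -g.val 0 1 + y * g.val 0 0) * g.val 1 1 = y := by linear_combination y * hd
    rw [e1, e2] at h1
    have hi : g⁻¹ = mx (g.val 1 1) (-g.val 0 1) (-g.val 1 0) (g.val 0 0)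
        (by linear_combination hd) := by
      apply inv_eq_of_mul_eq_one_left
      rw [mx_one]
      apply G.SL_ext
      · rw [G.SL_mul]; simp only [mx_00, mx_01]; linear_combination hd
      · rw [G.SL_mul]; simp only [mx_00, mx_01]; ring
      · rw [G.SL_mul]; simp only [mx_10, mx_11]; ring
      · rw [G.SL_mul]; simp only [mx_10, mx_11]; linear_combination hd
    rw [hi]
    simp only [mx_00, mx_01, mx_10, mx_11]
    rw [← dvd_neg]
    convert h1 using 1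
    ring

/-- The group of the matrices `eʲ [[a, f b], [f c, d]]` and `eʲ [[f a, b], [c, f d]]` of determinant one,
`a, b, c, d ∈ O1`. -/
abbrev NN1 : Subgroup (SL2 Z1) := NN (sf ℤ) ⊓ NS (se ℤ)

/-- The elements of `NN1` which preserve the quadratic form `x² - y²` modulo `f⁶ = (1 + i)³`. -/
abbrev NQ1 : Subgroup (SL2 Z1) := NN1 ⊓ NQ (ff ℤ ^ 6)

/-- the `f`-sign of the generators: `t, v ↦ 0`, `u ↦ 1` -/
def chf (n : ℕ) : GA (al1 ^ n) →* Multiplicative (ZMod 2) :=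
  (liftA (liF (Multiplicative.ofAdd 1) 1) 1 (by
    apply compat
    · rw [al1_ga]
      simp only [map_mul, map_inv, liF_ga, liF_gb]
      decide
    · rw [al1_gb]
      simp only [map_mul, map_inv, liF_ga, liF_gb]
      decide) : GA al1 →* Multiplicative (ZMod 2)).comp (toA al1 n)

/-- the `e`-sign of the generators: `t ↦ 0`, `u, v ↦ 1` -/
def che (n : ℕ) : GA (al1 ^ n) →* Multiplicative (ZMod 2) :=
  (liftA (liF (Multiplicative.ofAdd 1) (Multiplicative.ofAdd 1)) 1 (by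
    apply compat
    · rw [al1_ga]
      simp only [map_mul, map_inv, liF_ga, liF_gb]
      decide
    · rw [al1_gb]
      simp only [map_mul, map_inv, liF_ga, liF_gb]
      decide) : GA al1 →* Multiplicative (ZMod 2)).comp (toA al1 n)

/-! ### The homomorphism `N2A kp1 → SL₂(Z1) / ±1` -/

/-- the homomorphism `N2A kp1 → SL₂(R) / ±1` given by `e`, `f` -/
def Th1s {R : Type} [CommRing R] (e f : R) (he : e ^ 4 + 1 = 0) (hf : f ^ 2 = 1 + e ^ 2) :
    N2A kp1 →* SL2 R ⧸ pm R :=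
  ThK kp1 (rho1 e f he hf) (mk1 e he) (mk_sq e he)
    (by rw [rho1_iA, rF1_ga, mk_mu]) (by rw [rho1_iA, rF1_gb, mk_mv])
    (by rw [rho1_iA, rho1_tA, map_mul, rF1_ga, mk_mt])

theorem Th1s_iK {R : Type} [CommRing R] (e f : R) (he : e ^ 4 + 1 = 0) (hf : f ^ 2 = 1 + e ^ 2)
    (g : G1) : Th1s e f he hf (iK kp1 g) = pj R (rho1 e f he hf g) := ThK_iK _ _ _ _ _ _ _ _

theorem Th1s_kk {R : Type} [CommRing R] (e f : R) (he : e ^ 4 + 1 = 0) (hf : f ^ 2 = 1 + e ^ 2) :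
    Th1s e f he hf (AB.kk kp1) = pj R (mk1 e he) := ThK_kk _ _ _ _ _ _ _

/-- the homomorphism `N2A kp1 → SL₂(Z1) / ±1` -/
def Th1 : N2A kp1 →* SL2 Z1 ⧸ pm Z1 := Th1s (ee ℤ) (ff ℤ) (ee_eq ℤ) (ff_eq ℤ)

/-- BLOCK G for `d = 1`: `NQ1 / ±1 → N2A kp1` -/
def S_G1 : Prop := ∃ Ψ : NQ1 →* N2A kp1, ∀ x : NQ1, Th1 (Ψ x) = pj Z1 x.val

end Pool.Agent.F8.D1
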