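import Pool.Agent.Lib.MP_305fdd_al.F8.D1.Defs

/-!
# MP_305fdd_al, `d = 1`: `Z1` is an order
-/

set_option autoImplicit false

namespace Pool.Agent.F8.D1

open Pool.Agent.MP_305fdd_al Pool.Agent.Lib.MP_305fdd_al Pool.Agent.F2X Pool.Agent.F8
  Pool.Agent.F8.HN Pool.Agent.F8.AB
open scoped QuadraticAlgebra

/-- the square root of two is irrational -/
theorem sq_two (a b : ℤ) (h : a * a = 2 * (b * b)) : a = 0 ∧ b = 0 := by
  have hb : b = 0 := by
    by_contra hb
    apply irrational_sqrt_two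
    refine ⟨|(a : ℚ)| / |(b : ℚ)|, ?_⟩
    have hpos : (0 : ℝ) < |(b : ℝ)| := abs_pos.2 (by exact_mod_cast hb)
    push_cast
    symm
    rw [Real.sqrt_eq_iff_mul_self_eq (by norm_num) (by positivity)]
    have h4 : (a : ℝ) * a = 2 * (b * b) := by exact_mod_cast h
    have h5 : |(a : ℝ)| * |(a : ℝ)| = 2 * (|(b : ℝ)| * |(b : ℝ)|) := by
      rw [abs_mul_abs_self, abs_mul_abs_self, h4]
    field_simp
    linear_combination -h5
  refine ⟨?_, hb⟩
  rw [hb] at h
  simpa using h

/-- the norm form of the Gaussian integers -/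
def n1 (z : O1) : ℤ := z.re * z.re + z.im * z.im

theorem n1_mul (z w : O1) : n1 (z * w) = n1 z * n1 w := by
  unfold n1
  rw [QuadraticAlgebra.re_mul, QuadraticAlgebra.im_mul]
  ring

theorem n1_eq_zero {z : O1} (h : n1 z = 0) : z = 0 := by
  unfold n1 at h
  have h1 : z.re * z.re = 0 := by nlinarith [mul_self_nonneg z.re, mul_self_nonneg z.im]
  have h2 : z.im * z.im = 0 := by nlinarith [mul_self_nonneg z.re, mul_self_nonneg z.im]
  exact QuadraticAlgebra.ext (mul_self_eq_zero.1 h1) (mul_self_eq_zero.1 h2)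

instance : NoZeroDivisors O1 where
  eq_zero_or_eq_zero_of_mul_eq_zero {a b} h := by
    have h1 : n1 a * n1 b = 0 := by rw [← n1_mul, h]; rfl
    rcases mul_eq_zero.1 h1 with h2 | h2
    · exact Or.inl (n1_eq_zero h2)
    · exact Or.inr (n1_eq_zero h2)

instance : Nontrivial O1 := ⟨⟨0, 1, fun h => by
  have := congrArg QuadraticAlgebra.re h
  exact absurd this (by decide)⟩⟩

instance : IsDomain O1 := NoZeroDivisors.to_isDomain O1

/-- elements of norm two are not squares -/
theorem O1_two (c : O1) (hc : n1 c = 2) (x y : O1) (h : x * x = c * (y * y)) : x = 0 ∧ y = 0 := by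
  have h1 : n1 x * n1 x = 2 * (n1 y * n1 y) := by
    have := congrArg n1 h
    rw [n1_mul, n1_mul, n1_mul, hc] at this
    exact this
  obtain ⟨h2, h3⟩ := sq_two _ _ h1
  exact ⟨n1_eq_zero h2, n1_eq_zero h3⟩

/-- `i` is not a square -/
theorem O1_ii (x y : O1) (h : x * x = ii ℤ * (y * y)) : x = 0 ∧ y = 0 := by
  have hr := congrArg QuadraticAlgebra.re h
  have hi := congrArg QuadraticAlgebra.im h
  simp only [QuadraticAlgebra.re_mul, QuadraticAlgebra.im_mul, ii] at hr hi
  have hn : n1 x * n1 x = n1 y * n1 y := by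
    have := congrArg n1 h
    rw [n1_mul, n1_mul, n1_mul] at this
    have hii : n1 (ii ℤ) = 1 := by decide
    rw [hii, one_mul] at this
    exact this
  have h0 : ∀ z : O1, 0 ≤ n1 z := fun z => by
    unfold n1; nlinarith [mul_self_nonneg z.re, mul_self_nonneg z.im]
  have hn' : n1 x = n1 y := by nlinarith [h0 x, h0 y]
  unfold n1 at hn'
  have e1 : (y.re - y.im) * (y.re - y.im) = 2 * (x.re * x.re) := by linarith
  have e2 : (y.re + y.im) * (y.re + y.im) = 2 * (x.im * x.im) := by linarith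
  obtain ⟨f1, f2⟩ := sq_two _ _ e1
  obtain ⟨f3, f4⟩ := sq_two _ _ e2
  exact ⟨QuadraticAlgebra.ext f2 f4, QuadraticAlgebra.ext (by
    show y.re = 0; omega) (by show y.im = 0; omega)⟩

theorem pp_ne : pp ℤ ≠ 0 := by
  intro h
  have := congrArg QuadraticAlgebra.re h
  exact absurd this (by decide)

instance : NoZeroDivisors (K1 ℤ) where
  eq_zero_or_eq_zero_of_mul_eq_zero {x y} h := by
    have hr := congrArg K1.a h
    have hi := congrArg K1.b h
    rw [K1.mul_a, K1.zero_a] at hr
    rw [K1.mul_b, K1.zero_b] at hi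
    have e1 : (x.a * x.a - pp ℤ * (x.b * x.b)) * y.a = 0 := by
      linear_combination x.a * hr - pp ℤ * x.b * hi
    have e2 : (x.a * x.a - pp ℤ * (x.b * x.b)) * y.b = 0 := by
      linear_combination x.a * hi - x.b * hr
    by_cases hN : x.a * x.a - pp ℤ * (x.b * x.b) = 0
    · left
      obtain ⟨h1, h2⟩ := O1_two (pp ℤ) (by decide) x.a x.b (by linear_combination hN)
      exact K1.ext h1 h2
    · right
      exact K1.ext ((mul_eq_zero.1 e1).resolve_left hN) ((mul_eq_zero.1 e2).resolve_left hN)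

instance : Nontrivial (K1 ℤ) := ⟨⟨0, 1, fun h => by
  have := congrArg (fun z : K1 ℤ => z.a.re) h
  exact absurd this (by decide)⟩⟩

instance : IsDomain (K1 ℤ) := NoZeroDivisors.to_isDomain (K1 ℤ)

theorem int2_ne : (2 : O1) ≠ 0 := by
  intro h
  have := congrArg QuadraticAlgebra.re h
  exact absurd this (by decide)

/-- `i` is not a square in `ℤ[i, f]` -/
theorem K1_ik (x y : K1 ℤ) (h : x * x = ik ℤ * (y * y)) : x = 0 ∧ y = 0 := by
  have hr := congrArg K1.a h
  have hi := congrArg K1.b h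
  simp only [K1.mul_a, K1.mul_b, ik, kk1_a, kk1_b] at hr hi
  have hii := ii_sq ℤ
  have h3 : x.a * x.b = ii ℤ * (y.a * y.b) := by
    apply mul_left_cancel₀ int2_ne
    linear_combination hi
  have hN : (x.a * x.a - pp ℤ * (x.b * x.b) - ii ℤ * (y.a * y.a - pp ℤ * (y.b * y.b))) *
      (x.a * x.a - pp ℤ * (x.b * x.b) + ii ℤ * (y.a * y.a - pp ℤ * (y.b * y.b))) = 0 := by
    linear_combination (x.a * x.a + pp ℤ * (x.b * x.b) + ii ℤ * (y.a * y.a + pp ℤ * (y.b * y.b))) *
      hr - 4 * pp ℤ * (x.a * x.b + ii ℤ * (y.a * y.b)) * h3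
  rcases mul_eq_zero.1 hN with h4 | h4
  · obtain ⟨f1, f2⟩ := O1_ii x.a y.a (by
      apply mul_left_cancel₀ int2_ne
      linear_combination hr + h4)
    obtain ⟨f3, f4⟩ := O1_ii x.b y.b (by
      apply mul_left_cancel₀ (mul_ne_zero int2_ne pp_ne)
      linear_combination hr - h4)
    exact ⟨K1.ext f1 f3, K1.ext f2 f4⟩
  · obtain ⟨f1, f2⟩ := O1_two (ii ℤ * pp ℤ) (by decide) x.a y.b (by
      apply mul_left_cancel₀ int2_ne
      linear_combination hr + h4)
    obtain ⟨f3, f4⟩ := O1_two (-(ii ℤ) * pp ℤ) (by decide) y.a x.b (by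
      apply mul_left_cancel₀ int2_ne
      linear_combination (ii ℤ) * (hr - h4) + 2 * (y.a * y.a) * hii)
    exact ⟨K1.ext f1 f4, K1.ext f3 f2⟩

instance : NoZeroDivisors Z1 where
  eq_zero_or_eq_zero_of_mul_eq_zero {x y} h := by
    have hr := congrArg S1.a h
    have hi := congrArg S1.b h
    rw [S1.mul_a, S1.zero_a] at hr
    rw [S1.mul_b, S1.zero_b] at hi
    have e1 : (x.a * x.a - ik ℤ * (x.b * x.b)) * y.a = 0 := by
      linear_combination x.a * hr - ik ℤ * x.b * hi
    have e2 : (x.a * x.a - ik ℤ * (x.b * x.b)) * y.b = 0 := by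
      linear_combination x.a * hi - x.b * hr
    by_cases hN : x.a * x.a - ik ℤ * (x.b * x.b) = 0
    · left
      obtain ⟨h1, h2⟩ := K1_ik x.a x.b (by linear_combination hN)
      exact S1.ext h1 h2
    · right
      exact S1.ext ((mul_eq_zero.1 e1).resolve_left hN) ((mul_eq_zero.1 e2).resolve_left hN)

instance : Nontrivial Z1 := ⟨⟨0, 1, fun h => by
  have := congrArg (fun z : Z1 => z.a.a.re) h
  exact absurd this (by decide)⟩⟩

instance : IsDomain Z1 := NoZeroDivisors.to_isDomain Z1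

/-- the coordinates over `ℤ` -/
def cz : Z1 ≃ₗ[ℤ] (Fin 2 → Fin 2 → Fin 2 → ℤ) :=
  AddEquiv.toIntLinearEquiv
    { toFun := fun z => ![![![z.a.a.re, z.a.a.im], ![z.a.b.re, z.a.b.im]],
        ![![z.b.a.re, z.b.a.im], ![z.b.b.re, z.b.b.im]]]
      invFun := fun v => ks (kk1 ⟨v 0 0 0, v 0 0 1⟩ ⟨v 0 1 0, v 0 1 1⟩)
        (kk1 ⟨v 1 0 0, v 1 0 1⟩ ⟨v 1 1 0, v 1 1 1⟩)
      left_inv := fun z => rfl
      right_inv := fun v => by
        funext i j k
        fin_cases i <;> fin_cases j <;> fin_cases k <;> rfl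
      map_add' := fun x y => by
        funext i j k
        fin_cases i <;> fin_cases j <;> fin_cases k <;> rfl }

instance : Module.Free ℤ Z1 := Module.Free.of_equiv cz.symm

instance : Module.Finite ℤ Z1 := Module.Finite.equiv cz.symm

instance : CharZero Z1 where
  cast_injective m n h := by
    have h1 : ∀ k : ℕ, ((k : Z1)).a.a.re = (k : ℤ) := by
      intro k
      induction k with
      | zero => simp
      | succ k ih => simp [ih]
    have := congrArg (fun z : Z1 => z.a.a.re) h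
    simp only [h1] at this
    exact_mod_cast this

end Pool.Agent.F8.D1
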