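import Pool.Agent.Lib.MP_305fdd_al.F8.D1.Defs
import Pool.Agent.Lib.MP_305fdd_al.F8.AB.DefsT
import Pool.Agent.Lib.MP_305fdd_al.F8.StmC

/-!
# MP_305fdd_al, once-punctured torus bundles with monodromy `(L² R²)ⁿ`: the blocks

MAIN RESULT (`S_rig1`): the groups `GA (al1 ^ n)`, `n ≥ 1`, are profinitely rigid.

Blocks: NT and NA for all positive monodromies (`AB/DefsT.lean`), lk1, E1, X1, G1, H1, Loc1.
-/

set_option autoImplicit false

namespace Pool.Agent.F8.D1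

open Pool.Agent.MP_305fdd_al Pool.Agent.Lib.MP_305fdd_al Pool.Agent.F2X Pool.Agent.F8
  Pool.Agent.F8.HN Pool.Agent.F8.AB
open scoped QuadraticAlgebra

/-- The types of the values of a representation `ρ` with the characters `χf`, `χe`: `ρ l = eʲ [[a, f b], [f c, d]]`
if `χf l = 1`, `ρ l = eʲ [[f a, b], [c, f d]]` if `χf l ≠ 1`, with `j = 0` if `χe l = 1`, `j = 1` if `χe l ≠ 1`. -/
structure Ty {Λ : Type} [Group Λ] (χf χe : Λ →* Multiplicative (ZMod 2)) (ρ : Λ →* SL2 Z1) :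
    Prop where
  /-- type `f = 0` -/
  f0 : ∀ l, χf l = 1 → tw (sf ℤ) (ρ l) = ρ l
  /-- type `f = 1` -/
  f1 : ∀ l, χf l ≠ 1 → tw (sf ℤ) (ρ l) = -ρ l
  /-- type `e = 0` -/
  e0 : ∀ l, χe l = 1 → SLm (se ℤ) (ρ l) = ρ l
  /-- type `e = 1` -/
  e1 : ∀ l, χe l ≠ 1 → SLm (se ℤ) (ρ l) = -ρ l

/-- BLOCK E1: from characters to matrices.

Input: a representation `s` over an algebraically closed field of characteristic zero with character in `Z1`, such that the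
character values have the types given by `χf`, `χe` (so they are in `O1, f O1, e O1, e f O1`), with elements of
`f`-type 1, irreducible on the subgroup `Λ⁰` of the elements of type 0, 0, and locally (modulo all `m`) a representation of
`Λ⁰` over `O1 / m` with the right character. Output: `ρ : Λ → SL₂(Z1)` with character `T` and the types `χf`, `χe`.

Proof. (1) Splitting and integrality for `Λ⁰` over `O1` (as block E, E7): a representation `ρ⁰ : Λ⁰ → SL₂(O1)` with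
character `T₀` (`T l = c1 (T₀ l)`). With `α = T₀(g)² - 4`, `β = T₀([g,h]) - 2` the equation `α x² + β y² = z²` is solvable modulo all
powers of all primes of `O1`. Legendre descent over the Euclidean ring `O1` (covering radius `√(1/2)`: every class modulo `b`
contains `r` with `N(r) ≤ N(b) / 2`, so `|b₁| ≤ |b| / 2 + 1 < |b|` for `N(b) > 4`); the base cases are
`a, b ∈ {1, i, π, i π}` up to squares, and here all the equations are solvable (`-1 = i²` is a square, `1 - i · 1² = -i π`,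
...), so no dyadic condition is needed.
(2) By Brauer-Nesbitt (`H.S_bn`) we may conjugate `s` so that `s l = j (c1 (ρ⁰ l))` for `l ∈ Λ⁰`. Let `φ = j f`, `η = j e`. Put `s' l = s l`, multiplied
with `φ` if the `f`-type is 1 and divided by `η` if the `e`-type is 1; `s' l s' m = c s' (l m)`, `c ∈ {1, π} · {1, i^(± 1)}`. For
`g ∈ Λ⁰` `tr (s' l s g) ∈ j O1` (and `∈ j (π O1)` for `f`-type 1). As `Λ⁰` is irreducible, `s' l` has entries in `K = Frac (j O1)`, with a common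
denominator. `M` = the `O1`-span of the `s' l e₁` is a lattice, free of rank 2, stable under all `s' l`; in a basis of `M` the `s' l` are
integral matrices of determinant in `⟨i⟩` (`f`-type 0), `π ⟨i⟩` (`f`-type 1). For `f`-type 1 `M₁ = s' l M` does not depend on `l`
(`l⁻¹ m` has `f`-type 0 for `l, m` of `f`-type 1), `M ⊃ M₁ ⊃ π M`, `M / M₁ ≅ O1 / π`. There is a basis `e₁, e₂` of `M` with
`M₁ = ⟨e₁, π e₂⟩`; in this basis `s' l = [[a, b], [π c, d]]` for `f`-type 0 and `[[π a, b], [π c, π d]]` for `f`-type 1. Conjugate with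
`diag(φ, 1)`. -/
def S_E1 : Prop := ∀ (Λ : Type) [Group Λ] (Om : Type) [Field Om] [IsAlgClosed Om] [CharZero Om]
  (j : Z1 →+* Om), Function.Injective j → ∀ (s : Λ →* SL2 Om) (T : Λ → Z1),
  (∀ l, tr (s l) = j (T l)) → ∀ χf χe : Λ →* Multiplicative (ZMod 2),
  (∀ l, χf l = 1 → sf ℤ (T l) = T l) → (∀ l, χf l ≠ 1 → sf ℤ (T l) = -T l) → (∃ l, χf l ≠ 1) →
  (∀ l, χe l = 1 → se ℤ (T l) = T l) → (∀ l, χe l ≠ 1 → se ℤ (T l) = -T l) →
  Irr (s.comp (χf.prod χe).ker.subtype) →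
  (∀ m : ℕ, 0 < m → ∃ r : (χf.prod χe).ker →* SL2 (E1 (ZMod m)), ∀ l : (χf.prod χe).ker,
    ∃ t : O1, T l = c1 ℤ t ∧ tr (r l) = E1m (Int.castRingHom (ZMod m)) t) →
  ∃ ρ : Λ →* SL2 Z1, (∀ l, tr (ρ l) = T l) ∧ Ty χf χe ρ

/-- BLOCK lk1: the output of the transfer satisfies the assumptions of block E1, with `χf = Φ (chf n)`,
`χe = Φ (che n)`. (As `D7/Lk.lean`.) -/
def S_lk1 : Prop := ∀ (n : ℕ) (Λ : Type) [Group Λ] (Φ : NatBij (GA (al1 ^ n)) Λ)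
  (nL : Λ →* Multiplicative ℤ), Function.Surjective nL → CmG Φ (nA (al1 ^ n)) nL →
  ∀ (T : Λ → Z1) (s : Λ →* SL2 (AlgebraicClosure ℚ)) (j : Z1 →+* AlgebraicClosure ℚ),
  OutA (r1 n) Φ nL T s j → ∀ χf χe : Λ →* Multiplicative (ZMod 2), Φ.toFun _ (chf n) = χf →
  Φ.toFun _ (che n) = χe →
  (∀ l, χf l = 1 → sf ℤ (T l) = T l) ∧ (∀ l, χf l ≠ 1 → sf ℤ (T l) = -T l) ∧
  (∃ l, χf l ≠ 1) ∧ (∀ l, χe l = 1 → se ℤ (T l) = T l) ∧
  (∀ l, χe l ≠ 1 → se ℤ (T l) = -T l) ∧ Irr (s.comp (χf.prod χe).ker.subtype) ∧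
  ∀ m : ℕ, 0 < m → ∃ r : (χf.prod χe).ker →* SL2 (E1 (ZMod m)), ∀ l : (χf.prod χe).ker,
    ∃ t : O1, T l = c1 ℤ t ∧ tr (r l) = E1m (Int.castRingHom (ZMod m)) t

/-- the reduction modulo `2` -/
abbrev h2 : Z1 →+* S1 (ZMod 2) := S1m (Int.castRingHom (ZMod 2))

/-- BLOCK X1: the conjugation into `NQ1`. The representation `ρ` of block E1 can be conjugated by an element of `NN1` such that it
is congruent modulo `(1 + i)³` to the representation matched with `r1 n`.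

Proof. Let `O₂ = ℤ₂[i]`, `K₂ = ℚ₂(i)`, `π = 1 + i`.
(1) `NG.T.S_rL` (`p = 2`, `A = Z1`) gives `r : Λ → SL₂(ℤ₂ ⊗ Z1) = SL₂(S1 ℤ₂)`, the limit of the matched representations; for every `k` and `l`
there is `g : GA (al1 ^ n)` with `r l ≡ r1 n g` modulo `2 ^ k`, `chf n g = χf l`, `che n g = χe l` (`Φ.range_eq` for the product of the three
homomorphisms, `pair_val`). So `r l` has the same type as `ρ l` and preserves `x² - y²` modulo `f⁶`, and `tr (r l) = tr (ρ l)` in `ℤ₂ ⊗ Z1`.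
(2) Detwist: for `g = eʲ [[a, f b], [f c, d]]` put `M(g) = [[a, b], [π c, d]]`, for `g = eʲ [[f a, b], [c, f d]]` put
`M(g) = [[π a, b], [π c, π d]]` (`M(g) = eʲ⁻.. fʳ D⁻¹ g D`, `D = diag(f, 1)`). `M(ρ l)` and `M(r l)` have the same traces and determinants, for all `l`.
On `Λ⁰` (types 0, 0) `M ∘ ρ : Λ⁰ → SL₂(O1)`, `M ∘ r : Λ⁰ → SL₂(O₂)` are homomorphisms with equal traces, irreducible over `K₂`,
so by `H.S_bn` there is `X ∈ GL₂(K₂)` with `X M(ρ g) = M(r g) X` for `g ∈ Λ⁰`. For every `l` the matrix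
`M(r l)⁻¹ X M(ρ l) X⁻¹` commutes with `M(r g)`, `g ∈ Λ⁰`, so it is a scalar `c`; choose `g ∈ Λ⁰` with `tr (M(ρ l) M(ρ g)) ≠ 0`
(irreducibility), then the traces give `c = 1`. So `X M(ρ l) = M(r l) X` for all `l : Λ`.
(3) Multiply `X` by a scalar: `X ∈ M₂(O₂)`, not divisible by `π`. Choose `l` with `χf l ≠ 1`:
`M(ρ l) = [[π a, b], [π c, π d]]`, `M(r l) = [[π a', b'], [π c', π d']]` with `b, c, b', c'` units. Comparing the entries of
`X M(ρ l) = M(r l) X`, `X = [[x₁, x₂], [x₃, x₄]]`: `x₃ = π y₃`; `x₁ b ≡ b' x₄` modulo `π`; if `x₁, x₄` are units then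
`X = [[x₁, x₂], [π y₃, x₄]]`, `det X` a unit; otherwise `x₁ = π y₁`, `x₄ = π y₄`, `x₂` is a unit, `x₂ c ≡ b' y₃`, so `y₃` is a unit and
`X = [[π y₁, x₂], [π y₃, π y₄]]`, `det X / π` a unit.
(4) The units of `O1 / π³` (8 elements) are `1, i, -1, -i`. So there is `Y ∈ M₂(O1)` of the same form as `X`, congruent to `X` modulo
`π³` (entrywise `y₁, x₂, y₃, y₄` resp. `x₁, x₂, y₃, x₄`), with `det Y ∈ ⟨i⟩` resp. `π ⟨i⟩`: first case
`Y = [[1, 0], [π z, 1]] diag(i^k, i^m) [[1, w], [0, 1]]`, second case `Y = [[0, 1], [π, 0]] Y'` with `Y'` as in the first case. `Y = M(γ)` for some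
`γ ∈ NN1` up to a power of `i`, `ρ₁ l = γ ρ l γ⁻¹`. Then `M(ρ₁ l) = Y M(ρ l) Y⁻¹ ≡ X M(ρ l) X⁻¹ = M(r l)` modulo `π³` in the entries `a, b, c, d`
(`Y = X (1 + π³ Z)`, `Z` of the form `[[*, *], [π *, *]]`). So `ρ₁ l ∈ NQ (f⁶)` and `ρ₁ l ≡ r l` modulo `2`. -/
def S_X1 : Prop := ∀ (n : ℕ) (Λ : Type) [Group Λ] (Φ : NatBij (GA (al1 ^ n)) Λ)
  (χf χe : Λ →* Multiplicative (ZMod 2)), Φ.toFun _ (chf n) = χf → Φ.toFun _ (che n) = χe →
  (∃ l, χf l ≠ 1) → ∀ ρ : Λ →* SL2 Z1, Ty χf χe ρ → Irr (ρ.comp (χf.prod χe).ker.subtype) →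
  (∀ (S : Type) [CommRing S] [Finite S] (h : Z1 →+* S) (l : Λ),
    h (tr (ρ l)) = tr (Φ.toFun _ ((SLm h).comp (r1 n)) l)) →
  ∃ ρ₁ : Λ →* SL2 Z1, (∀ l, tr (ρ₁ l) = tr (ρ l)) ∧ Ty χf χe ρ₁ ∧
    (∀ l, ρ₁ l ∈ NQ (ff ℤ ^ 6)) ∧ ∀ l, SLm h2 (ρ₁ l) = Φ.toFun _ ((SLm h2).comp (r1 n)) l

/-! ### The conclusion -/

/-- BLOCK H1

Proof. As `D7/H7.lean`. The homomorphism `f = Ψ ∘ ρ : Λ → N2A kp1`. For `x ∈ ker nL` `nuK (f x) = 1`. Suppose `epK (f x) ≠ 1`: `f x = w k`, `w ∈ F`,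
`ρ x = ± rF1 w K`. Modulo `2`, with the sign `χf`: `(ρ x, χf x) = (rF1 w', chf w')` for some `w' ∈ F` (`p_cmpA` for the product of
the two homomorphisms). With `δ = w⁻¹ w'`: `K = rF1 δ` modulo `2` and `chf δ = 1` (the nontrivial value; `chf w + 1 = χf x`, since
`K` is of `f`-type 1). Let `σ = [[0, 1], [1, 0]]` and `Z₀ = [[1, f³], [f³, 1]]` over `S1 (ZMod 2)`, `Z₀² = 1`. The set of the
`(g, ε)` with `σ g σ = Z₀ ^ ε g`, `g Z₀ = Z₀ g` is a subgroup of `SL₂(S1 (ZMod 2)) × C₂` which contains `(u, 1)`, `(v, 0)`, so it contains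
`(rF1 δ, 1) = (K, 1)`, but `σ K σ = K ≠ Z₀ K`. -/
def S_fst1 : Prop := ∀ (n : ℕ) (Λ : Type) [Group Λ] (Φ : NatBij (GA (al1 ^ n)) Λ)
  (nL : Λ →* Multiplicative ℤ), Function.Surjective nL → CmG Φ (nA (al1 ^ n)) nL →
  (∀ f : Λ →* Multiplicative ℤ, nL.ker ≤ f.ker) → ∀ (χf χe : Λ →* Multiplicative (ZMod 2)),
  Φ.toFun _ (chf n) = χf → Φ.toFun _ (che n) = χe → ∀ ρ : Λ →* SL2 Z1, (∀ l, ρ l ∈ NQ1) →
  Ty χf χe ρ →
  (∀ (S : Type) [CommRing S] [Finite S] (h : Z1 →+* S) (l : Λ),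
    h (tr (ρ l)) = tr (Φ.toFun _ ((SLm h).comp (r1 n)) l)) →
  (∀ l, SLm h2 (ρ l) = Φ.toFun _ ((SLm h2).comp (r1 n)) l) →
  ∀ Ψ : NQ1 →* N2A kp1, (∀ x : NQ1, Th1 (Ψ x) = pj Z1 x.val) →
  ∃ h : nL.ker →* F, (∀ (l : Λ) (x : nL.ker), h x = 1 → h (MulAut.conjNormal l x) = 1) ∧
    ¬ IsCyclic h.range

/-- the class of the monodromy is determined locally -/
def S_Loc1 : Prop := ∀ n : ℕ, 1 ≤ n → Loc (al1 ^ n)

/-- MAIN RESULT for `d = 1` -/
def S_rig1 : Prop := ∀ n : ℕ, 1 ≤ n → ProfinitelyRigid (GA (al1 ^ n))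

end Pool.Agent.F8.D1
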