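import Pool.Agent.Lib.MP_305fdd_al.F8.OV.lo1
import Pool.Agent.Lib.MP_305fdd_al.F8.AB.LocG
import Pool.Agent.Lib.MP_305fdd_al.F2X.P.cor
import Pool.Agent.Lib.MP_305fdd_al.F8.D1.Stm

/-!
# MP_305fdd_al, `d = 1`: the matrix of the monodromy `L² R²`
-/

set_option autoImplicit false

namespace Pool.Agent.F8.D1

open Pool.Agent.MP_305fdd_al Pool.Agent.Lib.MP_305fdd_al Pool.Agent.F2X Pool.Agent.F8
  Pool.Agent.F8.HN Pool.Agent.F8.AB Pool.Agent.F8.OV
open scoped QuadraticAlgebra

theorem AM_al1 : (AM al1).val = !![7, 4; -2, -1] := by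
  rw [AM_val, amat_eq]
  show !![vec (al1 ga) 0, vec (al1 gb) 0; vec (al1 ga) 1, vec (al1 gb) 1] = _
  rw [al1_ga, al1_gb]
  simp only [vec_mul, vec_inv, vec_of]
  ext i j
  fin_cases i <;> fin_cases j <;> simp

/-- the square root of the matrix of the monodromy -/
def C1 : GL (Fin 2) ℤ where
  val := !![3, 2; -1, -1]
  inv := !![1, 2; -1, -3]
  val_inv := by
    ext i j
    fin_cases i <;> fin_cases j <;> simp [Matrix.mul_apply, Fin.sum_univ_two]
  inv_val := by
    ext i j
    fin_cases i <;> fin_cases j <;> simp [Matrix.mul_apply, Fin.sum_univ_two]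

theorem C1_sq : C1 ^ 2 = AM al1 := by
  apply Units.ext
  rw [pow_two, Units.val_mul, AM_al1]
  show !![3, 2; -1, -1] * !![3, 2; -1, -1] = _
  ext i j
  fin_cases i <;> fin_cases j <;> simp [Matrix.mul_apply, Fin.sum_univ_two]

/-- the matrix of the monodromy is hyperbolic -/
theorem hyp1 : Hyp (AM al1) := by
  refine ⟨?_, ?_⟩
  · rw [AM_al1, Matrix.det_fin_two_of]; norm_num
  · rw [AM_al1, Matrix.trace_fin_two_of]; norm_num

/-- a matrix which inverts the matrix of the monodromy -/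
def Y1 : GL (Fin 2) ℤ where
  val := !![1, 4; 0, -1]
  inv := !![1, 4; 0, -1]
  val_inv := by
    ext i j
    fin_cases i <;> fin_cases j <;> simp [Matrix.mul_apply, Fin.sum_univ_two]
  inv_val := by
    ext i j
    fin_cases i <;> fin_cases j <;> simp [Matrix.mul_apply, Fin.sum_univ_two]

/-- the matrix of the monodromy is inverted by `Y1` -/
theorem inv1 : Y1 * AM al1 * Y1⁻¹ = (AM al1)⁻¹ := by
  symm
  rw [inv_eq_iff_mul_eq_one]
  apply Units.ext
  have h : (Y1⁻¹).val = !![1, 4; 0, -1] := rfl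
  have h' : Y1.val = !![1, 4; 0, -1] := rfl
  rw [Units.val_mul, Units.val_mul, Units.val_mul, h, h', AM_al1, Matrix.mul_fin_two,
    Matrix.mul_fin_two, Matrix.mul_fin_two, Units.val_one, Matrix.one_fin_two]
  norm_num

/-- the local-global principle -/
theorem lo1 : Lo (AM al1) := lo_one AM_al1

/-- BLOCK Loc1 -/
theorem p_Loc1 : S_Loc1 := by
  intro n hn
  have hC : C1.val = !![3, 2; -1, -1] := rfl
  have htr : C1.val.trace = 2 := by rw [hC, Matrix.trace_fin_two_of]; norm_num
  have hdet : C1.val.det = -1 := by rw [hC, Matrix.det_fin_two_of]; norm_num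
  exact loc_pow Pool.Agent.F2X.p_tr C1 (by rw [htr])
    (Or.inl (by rw [htr, hdet]; norm_num)) (2 * n) (by omega) (al1 ^ n)
    (by rw [map_pow AM al1 n, pow_mul, C1_sq])

end Pool.Agent.F8.D1
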