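import Pool.Agent.Lib.MP_305fdd_al.F8.D1.H1
import Pool.Agent.Lib.MP_305fdd_al.F8.D1.Dom
import Pool.Agent.Lib.MP_305fdd_al.F8.D1.Lo1
import Pool.Agent.Lib.MP_305fdd_al.F8.D1.E.Main
import Pool.Agent.Lib.MP_305fdd_al.F8.NG.T.Main
import Pool.Agent.Lib.MP_305fdd_al.F8.NG.A.Main
import Pool.Agent.Lib.MP_305fdd_al.F8.MainHN
import Pool.Agent.Lib.MP_305fdd_al.F8.MainO

/-!
# MP_305fdd_al, `d = 1`: assembly from the blocks X1, G1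
-/

set_option autoImplicit false

namespace Pool.Agent.F8.D1

open Pool.Agent.MP_305fdd_al Pool.Agent.Lib.MP_305fdd_al Pool.Agent.F2X Pool.Agent.F8
  Pool.Agent.F8.HN Pool.Agent.F8.AB
open scoped QuadraticAlgebra

theorem al_one : NG.al (NG.Wd [true] 1) = al1 := by
  apply aut_ext
  · show (NG.eL * NG.eL * NG.eR * NG.eR) ga = _
    rw [MulAut.mul_apply, MulAut.mul_apply, MulAut.mul_apply, NG.eR_ga, map_mul, NG.eR_ga,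
      NG.eR_x0, map_mul, map_mul, map_mul, map_mul, NG.eL_ga, NG.eL_ga, NG.eL_x0, map_mul,
      NG.eL_x0, NG.eL_ga, al1_u]
    group
  · show (NG.eL * NG.eL * NG.eR * NG.eR) gb = _
    rw [MulAut.mul_apply, MulAut.mul_apply, MulAut.mul_apply, NG.eR_gb, NG.eR_ga, map_mul,
      map_mul, NG.eL_ga, NG.eL_ga, NG.eL_x0, map_mul, NG.eL_x0, NG.eL_ga, al1_gb]
    unfold x0; group

theorem irr1 (n : ℕ) : Irr ((r1 n).comp (iA (al1 ^ n))) := by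
  refine ⟨ga, gb, ?_⟩
  show tr (r1 n (iA (al1 ^ n) (ga * gb * ga⁻¹ * gb⁻¹))) ≠ 2
  rw [r1_iA, map_mul, map_mul, map_mul, map_inv, map_inv, rF1_ga, rF1_gb, tr_comm1]
  exact Z1_four

theorem hyp1n (n : ℕ) (hn : 0 < n) : OV.Hyp (AM (al1 ^ n)) := by
  obtain ⟨h1, h2⟩ := NG.Wd_pow [true] 1 al1 al_one n hn
  exact ⟨h1, h2⟩

/-- the groups `GA (al1 ^ n)` are profinitely rigid, from the blocks X1, G1 -/
theorem rig1_of (hX : S_X1) (hG : S_G1) : S_rig1 := by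
  intro n hn Λ _ hΛ
  obtain ⟨hfg, hrf, hs⟩ := hΛ
  have := hfg
  have := (OV.p_fin (al1 ^ n)).1
  obtain ⟨Φ⟩ := exists_natBij hs.symm
  obtain ⟨nL, hsur, hC, hz⟩ := NG.A.all_NAG (al1 ^ n) (hyp1n n hn) Λ hfg hrf hs Φ
  obtain ⟨T, s, j, hO⟩ := NG.T.all_NTG [true] 1 al1 al_one n hn Z1 (r1 n) (irr1 n) Λ Φ nL hsur hC
  obtain ⟨χf, hχf⟩ : ∃ χf, Φ.toFun _ (chf n) = χf := ⟨_, rfl⟩
  obtain ⟨χe, hχe⟩ : ∃ χe, Φ.toFun _ (che n) = χe := ⟨_, rfl⟩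
  obtain ⟨h1, h2, h3, h4, h5, hirr, hloc⟩ := p_lk1 n Λ Φ nL hsur hC T s j hO χf χe hχf hχe
  obtain ⟨ρ, hρ1, hρ2⟩ := PE.p_E1 Λ (AlgebraicClosure ℚ) j hO.inj s T hO.char χf χe h1 h2 h3 h4 h5
    hirr hloc
  have hred : ∀ (S : Type) [CommRing S] [Finite S] (h : Z1 →+* S) (l : Λ),
      h (tr (ρ l)) = tr (Φ.toFun _ ((SLm h).comp (r1 n)) l) := fun S _ _ h l => by
    rw [hρ1]; exact hO.red S h l
  have hirr' : Irr (ρ.comp (χf.prod χe).ker.subtype) := by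
    obtain ⟨a, b, hab⟩ := hirr
    refine ⟨a, b, fun h => hab ?_⟩
    have e : tr (ρ ((a * b * a⁻¹ * b⁻¹ : (χf.prod χe).ker) : Λ)) = 2 := h
    have e2 : tr (s ((a * b * a⁻¹ * b⁻¹ : (χf.prod χe).ker) : Λ)) = 2 := by
      rw [hO.char, ← hρ1, e, map_ofNat]
    exact e2
  obtain ⟨ρ₁, hr1, hr2, hr3, hr4⟩ := hX n Λ Φ χf χe hχf hχe h3 ρ hρ2 hirr' hred
  have hN : ∀ l, ρ₁ l ∈ NQ1 := by
    intro l
    refine ⟨⟨?_, ?_⟩, hr3 l⟩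
    · by_cases h : χf l = 1
      · exact Or.inl (hr2.f0 l h)
      · exact Or.inr (hr2.f1 l h)
    · by_cases h : χe l = 1
      · exact Or.inl (hr2.e0 l h)
      · exact Or.inr (hr2.e1 l h)
  obtain ⟨Ψ, hΨ⟩ := hG
  obtain ⟨h, hh1, hh2⟩ := p_fst1 n Λ Φ nL hsur hC hz χf χe hχf hχe ρ₁ hN hr2
    (fun S _ _ f l => by rw [hr1]; exact hred S f l) hr4 Ψ hΨ
  exact all_secA (al1 ^ n) (p_Loc1 n hn) Λ Φ nL hfg hrf hs hsur hC h hh1 hh2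

end Pool.Agent.F8.D1
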