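import Pool.Agent.Lib.MP_305fdd_al.F8.D1.Lk
import Pool.Agent.Lib.MP_305fdd_al.F8.AB.HLem
import Pool.Agent.Lib.MP_305fdd_al.F8.P.cmpA

/-!
# MP_305fdd_al, `d = 1`: block H1
-/

set_option autoImplicit false

namespace Pool.Agent.F8.D1

open Pool.Agent.MP_305fdd_al Pool.Agent.Lib.MP_305fdd_al Pool.Agent.F2X Pool.Agent.F8
  Pool.Agent.F8.HN Pool.Agent.F8.AB
open Pool.Agent.F8.D7 (mus mus_one mus_ne)
open scoped QuadraticAlgebra

/-! ### The subgroup modulo `2` -/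

section two

variable {R : Type} [CommRing R]

/-- `σ = [[0, 1], [-1, 0]]` -/
def sg0 (R : Type) [CommRing R] : SL2 R := mx 0 1 (-1) 0 (by ring)

/-- `Z₀ = [[1, f³], [f³, 1]]` -/
def zm (e f : R) (he : e ^ 4 + 1 = 0) (hf : f ^ 2 = 1 + e ^ 2) (ht : (2 : R) = 0) : SL2 R :=
  mx 1 (f ^ 3) (f ^ 3) 1 (by
    linear_combination (-e ^ 2 - 3) * he + (-e ^ 4 - e ^ 2 * f ^ 2 - 2 * e ^ 2 - f ^ 4 - f ^ 2 - 1) * hf + (-e ^ 2 + 1) * ht)

theorem zm_sq (e f : R) (he : e ^ 4 + 1 = 0) (hf : f ^ 2 = 1 + e ^ 2) (ht : (2 : R) = 0) :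
    zm e f he hf ht * zm e f he hf ht = 1 := by
  unfold zm
  rw [mx_mul, mx_one]
  apply mx_congr
  · linear_combination (e ^ 2 + 3) * he + (e ^ 4 + e ^ 2 * f ^ 2 + 2 * e ^ 2 + f ^ 4 + f ^ 2 + 1) * hf + (e ^ 2 - 1) * ht
  · linear_combination (2 * f) * hf + (e ^ 2 * f + f) * ht
  · linear_combination (2 * f) * hf + (e ^ 2 * f + f) * ht
  · linear_combination (e ^ 2 + 3) * he + (e ^ 4 + e ^ 2 * f ^ 2 + 2 * e ^ 2 + f ^ 4 + f ^ 2 + 1) * hf + (e ^ 2 - 1) * ht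

theorem sg_mu (e f : R) (he : e ^ 4 + 1 = 0) (hf : f ^ 2 = 1 + e ^ 2) (ht : (2 : R) = 0) :
    sg0 R * mu1 e f he hf = zm e f he hf ht * mu1 e f he hf * sg0 R := by
  unfold zm sg0 mu1
  rw [mx_mul, mx_mul, mx_mul]
  apply mx_congr
  · linear_combination (e) * he + (e ^ 3 + e * f ^ 2 + e) * hf + (e ^ 3) * ht
  · linear_combination (-e * f) * he + (-e ^ 3 * f) * hf + (e * f) * ht
  · linear_combination (-e * f) * he + (-e ^ 3 * f) * hf + (e * f) * ht
  · linear_combination (e ^ 3 + 2 * e) * he + (e ^ 5 + e ^ 3 * f ^ 2 + e ^ 3) * hf + (-e) * ht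

theorem zm_mu (e f : R) (he : e ^ 4 + 1 = 0) (hf : f ^ 2 = 1 + e ^ 2) (ht : (2 : R) = 0) :
    mu1 e f he hf * zm e f he hf ht = zm e f he hf ht * mu1 e f he hf := by
  unfold zm mu1
  rw [mx_mul, mx_mul]
  apply mx_congr
  · linear_combination (-2 * e * f) * he + (-2 * e ^ 3 * f) * hf + (-e ^ 3 * f + e * f) * ht
  · linear_combination (-e ^ 3 - 3 * e) * he + (-e ^ 5 - e ^ 3 * f ^ 2 - 2 * e ^ 3 - e * f ^ 2 - e) * hf + (-e ^ 3 + e) * ht
  · linear_combination (e ^ 3 + 3 * e) * he + (e ^ 5 + e ^ 3 * f ^ 2 + 2 * e ^ 3 + e * f ^ 2 + e) * hf + (e ^ 3 - e) * ht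
  · linear_combination (2 * e * f) * he + (2 * e ^ 3 * f) * hf + (e ^ 3 * f - e * f) * ht

theorem sg_mv (e f : R) (he : e ^ 4 + 1 = 0) (hf : f ^ 2 = 1 + e ^ 2) :
    sg0 R * mv1 e f he hf = mv1 e f he hf * sg0 R := by
  unfold sg0 mv1
  rw [mx_mul, mx_mul]
  apply mx_congr
  · ring
  · ring
  · ring
  · ring

theorem zm_mv (e f : R) (he : e ^ 4 + 1 = 0) (hf : f ^ 2 = 1 + e ^ 2) (ht : (2 : R) = 0) :
    mv1 e f he hf * zm e f he hf ht = zm e f he hf ht * mv1 e f he hf := by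
  unfold zm mv1
  rw [mx_mul, mx_mul]
  apply mx_congr
  · linear_combination (2 * e ^ 3 + 4 * e) * he + (2 * e ^ 5 + 2 * e ^ 3 * f ^ 2 + 2 * e ^ 3) * hf + (-2 * e) * ht
  · ring
  · ring
  · linear_combination (-2 * e ^ 3 - 4 * e) * he + (-2 * e ^ 5 - 2 * e ^ 3 * f ^ 2 - 2 * e ^ 3) * hf + (2 * e) * ht

theorem sg_mk (e : R) (he : e ^ 4 + 1 = 0) (ht : (2 : R) = 0) :
    sg0 R * mk1 e he = mk1 e he * sg0 R := by
  unfold sg0 mk1
  rw [mx_mul, mx_mul]
  apply mx_congr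
  · linear_combination (e ^ 2) * ht
  · ring
  · ring
  · linear_combination (-e ^ 2) * ht

/-- the powers of an involution -/
abbrev zp (z : SL2 R) (hz : z * z = 1) : Multiplicative (ZMod 2) →* SL2 R := kZ z hz

theorem zp_one (z : SL2 R) (hz : z * z = 1) : zp z hz 1 = 1 := map_one _
theorem zp_ne (z : SL2 R) (hz : z * z = 1) {a : Multiplicative (ZMod 2)} (ha : a ≠ 1) :
    zp z hz a = z := by
  show (if Multiplicative.toAdd a = 0 then (1 : SL2 R) else z) = z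
  rw [if_neg]
  exact ha

theorem zp_comm (z : SL2 R) (hz : z * z = 1) (a : Multiplicative (ZMod 2)) {g : SL2 R}
    (hg : g * z = z * g) : g * zp z hz a = zp z hz a * g := by
  by_cases h : a = 1
  · rw [h, zp_one, mul_one, one_mul]
  · rw [zp_ne z hz h, hg]

/-- the pairs `(g, a)` with `g z = z g`, `s g = zᵃ g s` -/
def TS (s z : SL2 R) (hz : z * z = 1) : Subgroup (SL2 R × Multiplicative (ZMod 2)) where
  carrier := {x | x.1 * z = z * x.1 ∧ s * x.1 = zp z hz x.2 * x.1 * s}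
  one_mem' := by
    refine ⟨?_, ?_⟩
    · show (1 : SL2 R) * z = z * 1
      rw [one_mul, mul_one]
    · show s * 1 = zp z hz 1 * 1 * s
      rw [zp_one, mul_one, mul_one, one_mul]
  mul_mem' := by
    rintro ⟨g, a⟩ ⟨h, b⟩ ⟨g1, g2⟩ ⟨h1, h2⟩
    have g1' : g * z = z * g := g1
    have h1' : h * z = z * h := h1
    have g2' : s * g = zp z hz a * g * s := g2
    have h2' : s * h = zp z hz b * h * s := h2
    refine ⟨?_, ?_⟩
    · show g * h * z = z * (g * h)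
      rw [mul_assoc, h1', ← mul_assoc, g1', mul_assoc]
    · show s * (g * h) = zp z hz (a * b) * (g * h) * s
      rw [← mul_assoc, g2', mul_assoc, h2', map_mul]
      have := zp_comm z hz b g1'
      calc zp z hz a * g * (zp z hz b * h * s) = zp z hz a * (g * zp z hz b) * h * s := by
            simp only [mul_assoc]
        _ = _ := by rw [this]; simp only [mul_assoc]
  inv_mem' := by
    rintro ⟨g, a⟩ ⟨g1, g2⟩
    have g1' : g * z = z * g := g1
    have g2' : s * g = zp z hz a * g * s := g2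
    have g3 : g⁻¹ * z = z * g⁻¹ := by
      rw [inv_mul_eq_iff_eq_mul, ← mul_assoc, g1', mul_inv_cancel_right]
    refine ⟨g3, ?_⟩
    show s * g⁻¹ = zp z hz a⁻¹ * g⁻¹ * s
    have h3 : zp z hz a⁻¹ * g⁻¹ = (zp z hz a * g)⁻¹ := by
      rw [mul_inv_rev, map_inv]
      have := zp_comm z hz a⁻¹ g3
      rw [map_inv] at this
      exact this.symm
    rw [h3, eq_inv_mul_iff_mul_eq, ← mul_assoc, ← g2', mul_inv_cancel_right]

/-- a subgroup which contains the values at the generators -/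
theorem F_sub {Q : Type} [Group Q] (T : Subgroup Q) (φ : F →* Q) (hu : φ ga ∈ T) (hv : φ gb ∈ T)
    (w : F) : φ w ∈ T := by
  have e : T.subtype.comp (liF ⟨_, hu⟩ ⟨_, hv⟩) = φ := by
    apply hom_ext
    · show Subgroup.subtype _ (liF _ _ ga) = φ ga
      rw [liF_ga]; rfl
    · show Subgroup.subtype _ (liF _ _ gb) = φ gb
      rw [liF_gb]; rfl
  have e1 := DFunLike.congr_fun e w
  rw [← e1]
  exact Subtype.property _

/-- the reductions of the elements of `F` modulo `2` -/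
theorem F_TS (e f : R) (he : e ^ 4 + 1 = 0) (hf : f ^ 2 = 1 + e ^ 2) (ht : (2 : R) = 0) (w : F) :
    (rF1 e f he hf w, ch0f (iA al1 w)) ∈ TS (sg0 R) (zm e f he hf ht) (zm_sq e f he hf ht) := by
  have hu : (mu1 e f he hf, Multiplicative.ofAdd (1 : ZMod 2)) ∈
      TS (sg0 R) (zm e f he hf ht) (zm_sq e f he hf ht) :=
    ⟨zm_mu e f he hf ht, by
      show sg0 R * mu1 e f he hf = zp _ _ _ * mu1 e f he hf * sg0 R
      rw [zp_ne _ _ one_ne, sg_mu e f he hf ht]⟩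
  have hv : (mv1 e f he hf, (1 : Multiplicative (ZMod 2))) ∈
      TS (sg0 R) (zm e f he hf ht) (zm_sq e f he hf ht) :=
    ⟨zm_mv e f he hf ht, by
      show sg0 R * mv1 e f he hf = zp _ _ _ * mv1 e f he hf * sg0 R
      rw [zp_one, one_mul, sg_mv e f he hf]⟩
  generalize TS (sg0 R) (zm e f he hf ht) (zm_sq e f he hf ht) = T at *
  exact F_sub T ((rF1 e f he hf).prod (ch0f.comp (iA al1)))
    (by
      show (rF1 e f he hf ga, ch0f (iA al1 ga)) ∈ T
      rw [rF1_ga, ch0f_ga]; exact hu)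
    (by
      show (rF1 e f he hf gb, ch0f (iA al1 gb)) ∈ T
      rw [rF1_gb, ch0f_gb]; exact hv) w

/-- `k` is not the reduction of an element of `F` with sign `1` -/
theorem K_TS (e f : R) (he : e ^ 4 + 1 = 0) (hf : f ^ 2 = 1 + e ^ 2) (ht : (2 : R) = 0) (hne : f ^ 3 ≠ 0) :
    (mk1 e he, Multiplicative.ofAdd (1 : ZMod 2)) ∉
      TS (sg0 R) (zm e f he hf ht) (zm_sq e f he hf ht) := by
  rintro ⟨-, h⟩
  have h' : sg0 R * mk1 e he = zp _ _ _ * mk1 e he * sg0 R := h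
  rw [zp_ne _ _ one_ne, sg_mk e he ht, mul_assoc] at h'
  have h1 : zm e f he hf ht = 1 := by
    have : zm e f he hf ht * (mk1 e he * sg0 R) = 1 * (mk1 e he * sg0 R) := by
      rw [← h', one_mul]
    exact mul_right_cancel this
  apply hne
  have h2 := congrArg (fun x : SL2 R => x.val 0 1) h1
  unfold zm at h2
  rw [mx_one] at h2
  exact h2

end two

/-! ### Block H1 -/

theorem comm_pm {R : Type} [CommRing R] (a b x y : SL2 R) (e : x * y = y * x)
    (ha : a = x ∨ a = -x) (hb : b = y ∨ b = -y) : a * b = b * a := by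
  rcases ha with rfl | rfl <;> rcases hb with rfl | rfl
  · exact e
  · rw [mul_neg, neg_mul, e]
  · rw [mul_neg, neg_mul, e]
  · rw [neg_mul_neg, neg_mul_neg, e]

theorem comm_all {R K : Type} [CommRing R] [Group K] (h : K →* F)
    (hc : ∀ x y, h x * h y = h y * h x) (φ : F →* SL2 R) (r : K → SL2 R)
    (hpm : ∀ x, r x = φ (h x) ∨ r x = -φ (h x)) (x y : K) : r x * r y = r y * r x := by
  have e : φ (h x) * φ (h y) = φ (h y) * φ (h x) := by rw [← map_mul, hc, map_mul]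
  exact comm_pm (r x) (r y) (φ (h x)) (φ (h y)) e (hpm x) (hpm y)

theorem SLm_neg' {R S : Type} [CommRing R] [CommRing S] (f : R →+* S) (g : SL2 R) :
    SLm f (-g) = -SLm f g := by
  apply G.SL_ext <;> simp [SLm, Matrix.SpecialLinearGroup.map_apply_coe]

theorem comm_one {G : Type} [Group G] {a b : G} (e : a * b = b * a) : a * b * a⁻¹ * b⁻¹ = 1 := by
  rw [e, mul_inv_cancel_right, mul_inv_cancel]

theorem two_zero : (2 : S1 (ZMod 2)) = 0 := by
  apply S1.ext <;> apply K1.ext <;> apply QuadraticAlgebra.ext <;> decide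

theorem S1_neg (x : S1 (ZMod 2)) : -x = x := by
  have h : -x = x - 2 * x := by ring
  rw [h, two_zero, zero_mul, sub_zero]

theorem neg_S1 (g : SL2 (S1 (ZMod 2))) : -g = g := by
  apply G.SL_ext <;> rw [G.SL_neg] <;> exact S1_neg _

theorem ff3_ne : ff (ZMod 2) ^ 3 ≠ 0 := by decide

theorem h2_ee : h2 (ee ℤ) = ee (ZMod 2) := evs_ee _ _ _ _ _
theorem h2_ff : h2 (ff ℤ) = ff (ZMod 2) := evs_ff _ _ _ _ _

theorem Z1_four : (-2 : Z1) ≠ 2 := by
  intro h
  have := congrArg (fun z : Z1 => z.a.a.re) h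
  exact absurd this (by decide)

/-- the type `0` or `1` is determined by a nonzero matrix -/
theorem ty_ne {g : SL2 Z1} (h : tw (sf ℤ) g = g) (h' : tw (sf ℤ) g = -g) : False := by
  have h1 : g = -g := h.symm.trans h'
  have h2 : ∀ i j, g.val i j = 0 := by
    intro i j
    have e : g.val i j = -g.val i j := by
      rw [← G.SL_neg, ← h1]
    have e2 : ∀ z : Z1, z = -z → z = 0 := by
      intro z hz
      have hz' : ∀ x : O1, x = -x → x = 0 := fun x hx => e1_neg hx.symm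
      apply S1.ext <;> apply K1.ext <;> apply hz'
      · exact congrArg (fun z : Z1 => z.a.a) hz
      · exact congrArg (fun z : Z1 => z.a.b) hz
      · exact congrArg (fun z : Z1 => z.b.a) hz
      · exact congrArg (fun z : Z1 => z.b.b) hz
    exact e2 _ e
  have hd := G.SL_det g
  rw [h2 0 0, h2 0 1, zero_mul, zero_mul, sub_zero] at hd
  have := congrArg (fun z : Z1 => z.a.a.re) hd
  exact absurd this (by decide)

theorem tw_mk1 : tw (sf ℤ) (mk1 (ee ℤ) (ee_eq ℤ)) = -mk1 (ee ℤ) (ee_eq ℤ) := by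
  unfold mk1
  rw [tw_mx, mx_neg]
  apply mx_congr
  · rw [map_zero, neg_zero]
  · rw [map_pow, sf_ee]
  · rw [map_pow, sf_ee]
  · rw [map_zero, neg_zero]

theorem tw_rF1 (w : F) : tw (sf ℤ) (rF1 (ee ℤ) (ff ℤ) (ee_eq ℤ) (ff_eq ℤ) w) =
    mus Z1 (rF1 (ee ℤ) (ff ℤ) (ee_eq ℤ) (ff_eq ℤ) w, ch0f (iA al1 w)) := by
  rw [← rho1_iA]
  exact tw_rho1 (sf ℤ) (ee ℤ) (ff ℤ) (ee_eq ℤ) (ff_eq ℤ) (sf_ee ℤ) (sf_ff ℤ) (iA al1 w)

theorem mul_ofAdd {a : Multiplicative (ZMod 2)} (h : a ≠ 1) : a = Multiplicative.ofAdd 1 := by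
  revert h; revert a; decide

/-- BLOCK H1 -/
theorem p_fst1 : S_fst1 := by
  intro n Λ _ Φ nL hsur hcm hz χf χe hχf hχe ρ hN hty hρ hρ2 Ψ hΨ
  -- the homomorphism to `N2A kp1`
  let ρ' : Λ →* NQ1 := ρ.codRestrict NQ1 hN
  let f : Λ →* N2A kp1 := Ψ.comp ρ'
  have hf : ∀ l, Th1 (f l) = pj Z1 (ρ l) := fun l => hΨ (ρ' l)
  have hnu : ∀ x : Λ, nL x = 1 → nuK kp1 (f x) = 1 := fun x hx =>
    hz ((nuK kp1).comp f) hx
  have hep : ∀ x : Λ, nL x = 1 → epK kp1 (f x) = 1 := by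
    intro x hx
    obtain ⟨g, hg | hg⟩ := K_cases kp1 (f x)
    · rw [hg]; rfl
    · exfalso
      have h1 := hnu x hx
      rw [hg, map_mul, nuK_kk, mul_one, nuK_iK] at h1
      obtain ⟨w, rfl⟩ := GA_ker _ g h1
      have h2' : pj Z1 (ρ x) = pj Z1 (rF1 (ee ℤ) (ff ℤ) (ee_eq ℤ) (ff_eq ℤ) w *
          mk1 (ee ℤ) (ee_eq ℤ)) := by
        rw [← hf x, hg, map_mul]
        show Th1s _ _ _ _ _ * Th1s _ _ _ _ _ = _
        rw [Th1s_iK, Th1s_kk, rho1_iA, ← map_mul]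
      -- modulo `2`
      have h3 : SLm h2 (ρ x) = rF1 (ee (ZMod 2)) (ff (ZMod 2)) (ee_eq _) (ff_eq _) w *
          mk1 (ee (ZMod 2)) (ee_eq _) := by
        have e : SLm h2 (rF1 (ee ℤ) (ff ℤ) (ee_eq ℤ) (ff_eq ℤ) w * mk1 (ee ℤ) (ee_eq ℤ)) =
            rF1 (ee (ZMod 2)) (ff (ZMod 2)) (ee_eq _) (ff_eq _) w *
              mk1 (ee (ZMod 2)) (ee_eq _) := by
          rw [map_mul, map_rF1, map_mk1]
          simp only [h2_ee, h2_ff]
        rcases pj_eq h2' with h | h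
        · rw [h, e]
        · rw [h, SLm_neg', e, neg_S1]
      -- the sign
      have h4 : χf x = ch0f (iA al1 w) * Multiplicative.ofAdd 1 := by
        have e : tw (sf ℤ) (ρ x) = -mus Z1 (ρ x, ch0f (iA al1 w)) := by
          have e0 : tw (sf ℤ) (rF1 (ee ℤ) (ff ℤ) (ee_eq ℤ) (ff_eq ℤ) w *
              mk1 (ee ℤ) (ee_eq ℤ)) = -mus Z1 (rF1 (ee ℤ) (ff ℤ) (ee_eq ℤ) (ff_eq ℤ) w *
              mk1 (ee ℤ) (ee_eq ℤ), ch0f (iA al1 w)) := by
            rw [map_mul, tw_mk1, tw_rF1, mul_neg]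
            by_cases h : ch0f (iA al1 w) = 1
            · rw [h, mus_one, mus_one]
            · rw [mus_ne _ h, mus_ne _ h, neg_mul]
          rcases pj_eq h2' with h | h
          · rw [h, e0]
          · rw [h, tw_neg, e0]
            by_cases h : ch0f (iA al1 w) = 1
            · rw [h, mus_one, mus_one]
            · rw [mus_ne _ h, mus_ne _ h]
        by_cases hc : χf x = 1
        · by_cases h : ch0f (iA al1 w) = 1
          · exfalso
            rw [h, mus_one] at e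
            exact ty_ne (hty.f0 x hc) e
          · rw [mul_ofAdd h, hc]; decide
        · by_cases h : ch0f (iA al1 w) = 1
          · rw [h, mul_ofAdd hc, one_mul]
          · exfalso
            rw [mus_ne _ h, neg_neg] at e
            exact ty_ne e (hty.f1 x hc)
      -- the matched element of `F`
      obtain ⟨g', hg1, hg2⟩ := (p_cmpA (al1 ^ n) Λ Φ nL hsur hcm
        (SL2 (S1 (ZMod 2)) × Multiplicative (ZMod 2)) (((SLm h2).comp (r1 n)).prod (chf n))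
        (SLm h2 (ρ x), χf x) 1).2 ⟨x, hx, by
          rw [pair_prod, hχf]
          show (_, _) = _
          rw [← hρ2 x]⟩
      obtain ⟨w', rfl⟩ := GA_ker _ g' hg1
      rw [MonoidHom.prod_apply, Prod.mk.injEq] at hg2
      obtain ⟨hg3, hg4⟩ := hg2
      have e1 : rF1 (ee (ZMod 2)) (ff (ZMod 2)) (ee_eq _) (ff_eq _) w' = SLm h2 (ρ x) := by
        rw [← hg3, comp_r1]
        simp only [h2_ee, h2_ff]
      have e2 : ch0f (iA al1 w') = χf x := by
        rw [← hg4, chf_iA]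
      have h5 := F_TS (ee (ZMod 2)) (ff (ZMod 2)) (ee_eq _) (ff_eq _) two_zero (w⁻¹ * w')
      have h6 : rF1 (ee (ZMod 2)) (ff (ZMod 2)) (ee_eq _) (ff_eq _) (w⁻¹ * w') =
          mk1 (ee (ZMod 2)) (ee_eq _) := by
        rw [map_mul, map_inv, e1, h3, inv_mul_cancel_left]
      have h7 : ch0f (iA al1 (w⁻¹ * w')) = Multiplicative.ofAdd 1 := by
        rw [map_mul, map_mul, map_inv, map_inv, e2, h4, inv_mul_cancel_left]
      rw [h6, h7] at h5
      exact K_TS _ _ _ _ two_zero ff3_ne h5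
  obtain ⟨h, hh1, hh2⟩ := exF kp1 f nL hep hnu
  refine ⟨h, hh2, fun hc => ?_⟩
  have hcomm := cyc_comm h hc
  -- `ρ x = ± rF1 (h x)`
  have hpm : ∀ x : nL.ker, ρ x = rF1 (ee ℤ) (ff ℤ) (ee_eq ℤ) (ff_eq ℤ) (h x) ∨
      ρ x = -rF1 (ee ℤ) (ff ℤ) (ee_eq ℤ) (ff_eq ℤ) (h x) := by
    intro x
    apply pj_eq
    rw [← hf x, hh1 x]
    show Th1s _ _ _ _ _ = _
    rw [Th1s_iK, rho1_iA]
  have hρc : ∀ x y : nL.ker, ρ x * ρ y = ρ y * ρ x :=
    comm_all h hcomm (rF1 (ee ℤ) (ff ℤ) (ee_eq ℤ) (ff_eq ℤ)) (fun x : nL.ker => ρ x) hpm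
  -- reduction modulo `41`
  set σ := Φ.toFun _ ((SLm h41).comp (r1 n)) with hσ
  have hcmp := p_cmpA (al1 ^ n) Λ Φ nL hsur hcm (SL2 (ZMod 41)) ((SLm h41).comp (r1 n))
  obtain ⟨x, hx1, hx2⟩ := (hcmp (mu1 (3 : ZMod 41) 16 (by decide) (by decide)) 1).1
    ⟨iA (al1 ^ n) ga, nA_iA _ _, by
    rw [← rF1_ga (3 : ZMod 41) 16 (by decide) (by decide)]
    exact comp_r1_41 n ga⟩
  obtain ⟨y, hy1, hy2⟩ := (hcmp (mv1 (3 : ZMod 41) 16 (by decide) (by decide)) 1).1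
    ⟨iA (al1 ^ n) gb, nA_iA _ _, by
    rw [← rF1_gb (3 : ZMod 41) 16 (by decide) (by decide)]
    exact comp_r1_41 n gb⟩
  have h1 : ρ (x * y * x⁻¹ * y⁻¹) = 1 := by
    have e : ρ x * ρ y = ρ y * ρ x := hρc ⟨x, hx1⟩ ⟨y, hy1⟩
    rw [map_mul, map_mul, map_mul, map_inv, map_inv]
    exact comm_one e
  have h3 := hρ (ZMod 41) h41 (x * y * x⁻¹ * y⁻¹)
  rw [h1, map_mul, map_mul, map_mul, map_inv, map_inv] at h3
  have e1 : σ x = mu1 (3 : ZMod 41) 16 (by decide) (by decide) := hx2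
  have e2 : σ y = mv1 (3 : ZMod 41) 16 (by decide) (by decide) := hy2
  rw [← hσ, e1, e2, tr_comm1, mx_one, mx_tr, map_add, map_one] at h3
  exact absurd h3 (by decide)

end Pool.Agent.F8.D1
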