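import Pool.Agent.Lib.MP_305fdd_al.F8.D1.Stm
import Pool.Agent.Lib.MP_305fdd_al.F8.D7.Lk

/-!
# MP_305fdd_al, `d = 1`: the link between the transfer and block E1
-/

set_option autoImplicit false

namespace Pool.Agent.F8.D1

open Pool.Agent.MP_305fdd_al Pool.Agent.Lib.MP_305fdd_al Pool.Agent.F2X Pool.Agent.F8
  Pool.Agent.F8.HN Pool.Agent.F8.AB
open Pool.Agent.F8.D7 (mus mus_one mus_ne mus_map sgn tr_neg' sign_one sign_ne int_zero int_neg)
open scoped QuadraticAlgebra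

/-! ### The signs -/

/-- the `f`-sign of the generators of `G1` -/
def ch0f : G1 →* Multiplicative (ZMod 2) :=
  liftA (liF (Multiplicative.ofAdd 1) 1) 1 (by
    apply compat
    · rw [al1_ga]
      simp only [map_mul, map_inv, liF_ga, liF_gb]
      decide
    · rw [al1_gb]
      simp only [map_mul, map_inv, liF_ga, liF_gb]
      decide)

/-- the `e`-sign of the generators of `G1` -/
def ch0e : G1 →* Multiplicative (ZMod 2) :=
  liftA (liF (Multiplicative.ofAdd 1) (Multiplicative.ofAdd 1)) 1 (by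
    apply compat
    · rw [al1_ga]
      simp only [map_mul, map_inv, liF_ga, liF_gb]
      decide
    · rw [al1_gb]
      simp only [map_mul, map_inv, liF_ga, liF_gb]
      decide)

theorem chf_eq (n : ℕ) (g : GA (al1 ^ n)) : chf n g = ch0f (toA al1 n g) := rfl
theorem che_eq (n : ℕ) (g : GA (al1 ^ n)) : che n g = ch0e (toA al1 n g) := rfl

theorem ch0f_ga : ch0f (iA al1 ga) = Multiplicative.ofAdd 1 := by
  unfold ch0f; rw [liftA_iA, liF_ga]
theorem ch0f_gb : ch0f (iA al1 gb) = 1 := by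
  unfold ch0f; rw [liftA_iA, liF_gb]
theorem ch0f_t : ch0f (tA al1) = 1 := by
  unfold ch0f; rw [liftA_tA]
theorem ch0e_ga : ch0e (iA al1 ga) = Multiplicative.ofAdd 1 := by
  unfold ch0e; rw [liftA_iA, liF_ga]
theorem ch0e_gb : ch0e (iA al1 gb) = Multiplicative.ofAdd 1 := by
  unfold ch0e; rw [liftA_iA, liF_gb]
theorem ch0e_t : ch0e (tA al1) = 1 := by
  unfold ch0e; rw [liftA_tA]

theorem chf_iA (n : ℕ) (w : F) : chf n (iA (al1 ^ n) w) = ch0f (iA al1 w) := by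
  rw [chf_eq, toA_iA]
theorem che_iA (n : ℕ) (w : F) : che n (iA (al1 ^ n) w) = ch0e (iA al1 w) := by
  rw [che_eq, toA_iA]

theorem one_ne : (Multiplicative.ofAdd 1 : Multiplicative (ZMod 2)) ≠ 1 := by decide

/-- the `f`-type of the values of `rho1` -/
theorem tw_rho1 {R : Type} [CommRing R] (σ : R →+* R) (e f : R) (he : e ^ 4 + 1 = 0)
    (hf : f ^ 2 = 1 + e ^ 2) (h1 : σ e = e) (h2 : σ f = -f) (x : G1) :
    tw σ (rho1 e f he hf x) = mus R (rho1 e f he hf x, ch0f x) := by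
  have e : (tw σ).comp (rho1 e f he hf) = (mus R).comp ((rho1 e f he hf).prod ch0f) := by
    apply homA_ext'
    · show tw σ (rho1 _ _ _ _ (iA al1 ga)) = mus R (rho1 _ _ _ _ (iA al1 ga), ch0f (iA al1 ga))
      rw [ch0f_ga, mus_ne _ one_ne, rho1_iA, rF1_ga]
      unfold mu1
      rw [tw_mx, mx_neg]
      apply mx_congr
      · rw [map_neg, map_mul, map_pow, h1, h2]; ring
      · rw [map_neg, map_pow, h1]
      · rw [map_pow, h1]
      · rw [map_mul, h1, h2]; ring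
    · show tw σ (rho1 _ _ _ _ (iA al1 gb)) = mus R (rho1 _ _ _ _ (iA al1 gb), ch0f (iA al1 gb))
      rw [ch0f_gb, mus_one, rho1_iA, rF1_gb]
      unfold mv1
      rw [tw_mx]
      apply mx_congr
      · rw [map_neg, h1]
      · rw [map_mul, map_pow, h1, h2]; ring
      · rw [map_neg, map_mul, map_pow, h1, h2]; ring
      · rw [map_neg, h1]
    · show tw σ (rho1 _ _ _ _ (tA al1)) = mus R (rho1 _ _ _ _ (tA al1), ch0f (tA al1))
      rw [ch0f_t, mus_one, rho1_tA]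
      unfold mt1
      rw [tw_mx]
      apply mx_congr
      · rw [map_one]
      · rw [map_mul, map_sub, map_pow, map_one, h1, h2]; ring
      · rw [map_zero, neg_zero]
      · rw [map_one]
  exact DFunLike.congr_fun e x

/-- the `e`-type of the values of `rho1` -/
theorem sm_rho1 {R : Type} [CommRing R] (σ : R →+* R) (e f : R) (he : e ^ 4 + 1 = 0)
    (hf : f ^ 2 = 1 + e ^ 2) (h1 : σ e = -e) (h2 : σ f = f) (x : G1) :
    SLm σ (rho1 e f he hf x) = mus R (rho1 e f he hf x, ch0e x) := by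
  have e : (SLm σ).comp (rho1 e f he hf) = (mus R).comp ((rho1 e f he hf).prod ch0e) := by
    apply homA_ext'
    · show SLm σ (rho1 _ _ _ _ (iA al1 ga)) = mus R (rho1 _ _ _ _ (iA al1 ga), ch0e (iA al1 ga))
      rw [ch0e_ga, mus_ne _ one_ne, rho1_iA, rF1_ga]
      unfold mu1
      rw [mx_map, mx_neg]
      apply mx_congr
      · rw [map_neg, map_mul, map_pow, h1, h2]; ring
      · rw [map_neg, map_pow, h1]; ring
      · rw [map_pow, h1]; ring
      · rw [map_mul, h1, h2]; ring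
    · show SLm σ (rho1 _ _ _ _ (iA al1 gb)) = mus R (rho1 _ _ _ _ (iA al1 gb), ch0e (iA al1 gb))
      rw [ch0e_gb, mus_ne _ one_ne, rho1_iA, rF1_gb]
      unfold mv1
      rw [mx_map, mx_neg]
      apply mx_congr
      · rw [map_neg, h1]
      · rw [map_mul, map_pow, h1, h2]; ring
      · rw [map_neg, map_mul, map_pow, h1, h2]; ring
      · rw [map_neg, h1]
    · show SLm σ (rho1 _ _ _ _ (tA al1)) = mus R (rho1 _ _ _ _ (tA al1), ch0e (tA al1))
      rw [ch0e_t, mus_one, rho1_tA, map_mt1]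
      unfold mt1
      apply mx_congr
      · rfl
      · rw [h1, h2]; ring
      · rfl
      · rfl
  exact DFunLike.congr_fun e x

theorem tw_r1 (n : ℕ) (g : GA (al1 ^ n)) :
    tw (sf ℤ) (r1 n g) = mus Z1 (r1 n g, chf n g) := by
  rw [chf_eq]
  exact tw_rho1 (sf ℤ) (ee ℤ) (ff ℤ) (ee_eq ℤ) (ff_eq ℤ) (sf_ee ℤ) (sf_ff ℤ) (toA al1 n g)

theorem sm_r1 (n : ℕ) (g : GA (al1 ^ n)) :
    SLm (se ℤ) (r1 n g) = mus Z1 (r1 n g, che n g) := by
  rw [che_eq]
  exact sm_rho1 (se ℤ) (ee ℤ) (ff ℤ) (ee_eq ℤ) (ff_eq ℤ) (se_ee ℤ) (se_ff ℤ) (toA al1 n g)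

/-! ### Transfer of the `e`-type -/

theorem signS_gen {A : Type} [CommRing A] (σ : A →+* A) {H Λ : Type} [Group H] [Group Λ]
    (Φ : NatBij H Λ) (ρ₀ : H →* SL2 A) (ch : H →* Multiplicative (ZMod 2))
    (htw : ∀ g, SLm σ (ρ₀ g) = mus A (ρ₀ g, ch g)) (T : Λ → A)
    (red : ∀ (S : Type) [CommRing S] [Finite S] (h : A →+* S) (l : Λ),
      h (T l) = tr (Φ.toFun _ ((SLm h).comp ρ₀) l))
    (S : Type) [CommRing S] [Finite S] (h : A →+* S) (l : Λ) :
    h (σ (T l)) = tr (mus S (Φ.toFun _ ((SLm h).comp ρ₀) l, Φ.toFun _ ch l)) := by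
  have e1 : (SLm (h.comp σ)).comp ρ₀ = (mus S).comp (((SLm h).comp ρ₀).prod ch) := by
    ext1 g
    show SLm (h.comp σ) (ρ₀ g) = mus S (SLm h (ρ₀ g), ch g)
    have e2 : SLm (h.comp σ) (ρ₀ g) = SLm h (SLm σ (ρ₀ g)) := rfl
    rw [e2, htw, mus_map]
  have e3 : (h.comp σ) (T l) = tr (Φ.toFun _ ((SLm (h.comp σ)).comp ρ₀) l) :=
    red S (h.comp σ) l
  rw [e1, Φ.nat, pair_prod] at e3
  rw [← RingHom.comp_apply, e3]
  rfl

theorem signS_one {A : Type} [CommRing A] (σ : A →+* A) {H Λ : Type} [Group H] [Group Λ]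
    (Φ : NatBij H Λ) (ρ₀ : H →* SL2 A) (ch : H →* Multiplicative (ZMod 2))
    (htw : ∀ g, SLm σ (ρ₀ g) = mus A (ρ₀ g, ch g)) (T : Λ → A)
    (red : ∀ (S : Type) [CommRing S] [Finite S] (h : A →+* S) (l : Λ),
      h (T l) = tr (Φ.toFun _ ((SLm h).comp ρ₀) l))
    (hA : ∀ z : A, (∀ (S : Type) [CommRing S] [Finite S] (h : A →+* S), h z = 0) → z = 0)
    (l : Λ) (hl : Φ.toFun _ ch l = 1) : σ (T l) = T l := by
  apply sub_eq_zero.1
  apply hA
  intro S _ _ h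
  rw [map_sub, signS_gen σ Φ ρ₀ ch htw T red S h l, hl, mus_one, red S h l, sub_self]

theorem signS_ne {A : Type} [CommRing A] (σ : A →+* A) {H Λ : Type} [Group H] [Group Λ]
    (Φ : NatBij H Λ) (ρ₀ : H →* SL2 A) (ch : H →* Multiplicative (ZMod 2))
    (htw : ∀ g, SLm σ (ρ₀ g) = mus A (ρ₀ g, ch g)) (T : Λ → A)
    (red : ∀ (S : Type) [CommRing S] [Finite S] (h : A →+* S) (l : Λ),
      h (T l) = tr (Φ.toFun _ ((SLm h).comp ρ₀) l))
    (hA : ∀ z : A, (∀ (S : Type) [CommRing S] [Finite S] (h : A →+* S), h z = 0) → z = 0)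
    (l : Λ) (hl : Φ.toFun _ ch l ≠ 1) : σ (T l) = -T l := by
  apply eq_neg_of_add_eq_zero_left
  apply hA
  intro S _ _ h
  rw [map_add, signS_gen σ Φ ρ₀ ch htw T red S h l, mus_ne _ hl, tr_neg', red S h l,
    neg_add_cancel]

/-! ### The ring `Z1` is residually finite -/

theorem S1m_apply {R S : Type} [CommRing R] [CommRing S] (g : R →+* S) (z : S1 R) :
    S1m g z = ks (kk1 ⟨g z.a.a.re, g z.a.a.im⟩ ⟨g z.a.b.re, g z.a.b.im⟩)
      (kk1 ⟨g z.b.a.re, g z.b.a.im⟩ ⟨g z.b.b.re, g z.b.b.im⟩) := by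
  unfold S1m
  have h : ∀ w : E1 R, ev1 ((c1 S).comp ((algebraMap S (E1 S)).comp g)) (ee S ^ 2)
      (by linear_combination ee_eq S) w = c1 S ⟨g w.re, g w.im⟩ := by
    intro w
    rw [ev1_apply, ee_sq]
    simp only [RingHom.comp_apply]
    rw [← map_mul, ← map_add]
    congr 1
    apply QuadraticAlgebra.ext
    · simp [ii]
    · simp [ii]
  rw [evs_apply, evk_apply, evk_apply, h, h, h, h]
  apply S1.ext <;> apply K1.ext <;>
    simp [c1_apply, S1.mul_a, S1.mul_b, K1.mul_a, K1.mul_b, ee, ff]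

theorem Z1_rf (z : Z1) (h : ∀ (S : Type) [CommRing S] [Finite S] (h : Z1 →+* S), h z = 0) :
    z = 0 := by
  have h1 : ∀ m : ℕ, 0 < m → ((z.a.a.re : ZMod m) = 0 ∧ (z.a.a.im : ZMod m) = 0 ∧
      (z.a.b.re : ZMod m) = 0 ∧ (z.a.b.im : ZMod m) = 0) ∧ (z.b.a.re : ZMod m) = 0 ∧
      (z.b.a.im : ZMod m) = 0 ∧ (z.b.b.re : ZMod m) = 0 ∧ (z.b.b.im : ZMod m) = 0 := by
    intro m hm
    have : NeZero m := ⟨hm.ne'⟩
    have h2 := h (S1 (ZMod m)) (S1m (Int.castRingHom (ZMod m)))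
    rw [S1m_apply] at h2
    exact ⟨⟨congrArg (fun x => x.a.a.re) h2, congrArg (fun x => x.a.a.im) h2,
      congrArg (fun x => x.a.b.re) h2, congrArg (fun x => x.a.b.im) h2⟩,
      congrArg (fun x => x.b.a.re) h2, congrArg (fun x => x.b.a.im) h2,
      congrArg (fun x => x.b.b.re) h2, congrArg (fun x => x.b.b.im) h2⟩
  apply S1.ext <;> apply K1.ext <;> apply QuadraticAlgebra.ext
  · exact int_zero _ fun m hm => (h1 m hm).1.1
  · exact int_zero _ fun m hm => (h1 m hm).1.2.1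
  · exact int_zero _ fun m hm => (h1 m hm).1.2.2.1
  · exact int_zero _ fun m hm => (h1 m hm).1.2.2.2
  · exact int_zero _ fun m hm => (h1 m hm).2.1
  · exact int_zero _ fun m hm => (h1 m hm).2.2.1
  · exact int_zero _ fun m hm => (h1 m hm).2.2.2.1
  · exact int_zero _ fun m hm => (h1 m hm).2.2.2.2

/-! ### Irreducibility -/

/-- the matched homomorphism -/
theorem comp_r1 {S : Type} [CommRing S] (g : Z1 →+* S) (n : ℕ) (w : F) :
    ((SLm g).comp (r1 n)) (iA (al1 ^ n) w) = rF1 (g (ee ℤ)) (g (ff ℤ)) (map_he g (ee_eq ℤ))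
      (map_hf g (ff_eq ℤ)) w := by
  show SLm g (r1 n (iA (al1 ^ n) w)) = _
  rw [r1_iA, map_rF1]

/-- `e ↦ 3`, `f ↦ 16` -/
def h41 : Z1 →+* ZMod 41 := evs (Int.castRingHom (ZMod 41)) 3 16 (by decide) (by decide)

theorem comp_r1_41 (n : ℕ) (w : F) : ((SLm h41).comp (r1 n)) (iA (al1 ^ n) w) =
    rF1 (3 : ZMod 41) 16 (by decide) (by decide) w := by
  rw [comp_r1]
  congr 1

/-- both signs -/
theorem prod_ker {H : Type} [Group H] {χ χ' : H →* Multiplicative (ZMod 2)} {h : H} :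
    h ∈ (χ.prod χ').ker ↔ χ h = 1 ∧ χ' h = 1 := by
  rw [MonoidHom.mem_ker, MonoidHom.prod_apply, Prod.mk_eq_one]

theorem irr_link (n : ℕ) (Λ : Type) [Group Λ] (Φ : NatBij (GA (al1 ^ n)) Λ) (T : Λ → Z1)
    (s : Λ →* SL2 (AlgebraicClosure ℚ)) (j : Z1 →+* AlgebraicClosure ℚ)
    (hinj : Function.Injective j) (hchar : ∀ g, tr (s g) = j (T g))
    (hred : ∀ l : Λ, h41 (T l) = tr (Φ.toFun _ ((SLm h41).comp (r1 n)) l)) :
    Irr (s.comp ((Φ.toFun _ (chf n)).prod (Φ.toFun _ (che n))).ker.subtype) := by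
  -- two elements of `F` of type `0`
  have hg : ∀ w : F, ch0f (iA al1 w) = 1 → ch0e (iA al1 w) = 1 → ∃ l : Λ,
      (Φ.toFun _ (chf n) l = 1 ∧ Φ.toFun _ (che n) l = 1) ∧
      Φ.toFun _ ((SLm h41).comp (r1 n)) l = rF1 (3 : ZMod 41) 16 (by decide) (by decide) w := by
    intro w hw hw'
    have h1 : (Φ.toFun _ (((SLm h41).comp (r1 n)).prod ((chf n).prod (che n)))).range =
        (((SLm h41).comp (r1 n)).prod ((chf n).prod (che n))).range := Φ.range_eq _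
    have h2 : (((SLm h41).comp (r1 n)).prod ((chf n).prod (che n))) (iA (al1 ^ n) w) ∈
        (Φ.toFun _ (((SLm h41).comp (r1 n)).prod ((chf n).prod (che n)))).range := by
      rw [h1]; exact ⟨_, rfl⟩
    obtain ⟨l, hl⟩ := h2
    rw [pair_prod] at hl
    have e1 := congrArg Prod.snd hl
    have e2 : Φ.toFun _ ((chf n).prod (che n)) l =
      (chf n (iA (al1 ^ n) w), che n (iA (al1 ^ n) w)) := e1
    rw [pair_prod, chf_iA, che_iA, hw, hw'] at e2
    refine ⟨l, ⟨congrArg Prod.fst e2, congrArg Prod.snd e2⟩, ?_⟩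
    have := congrArg Prod.fst hl
    rw [← comp_r1_41 n w]
    exact this
  obtain ⟨l₁, hc1, hl1⟩ := hg (ga * ga) (by rw [map_mul, map_mul, ch0f_ga]; decide)
    (by rw [map_mul, map_mul, ch0e_ga]; decide)
  obtain ⟨l₂, hc2, hl2⟩ := hg (gb * gb) (by rw [map_mul, map_mul, ch0f_gb]; decide)
    (by rw [map_mul, map_mul, ch0e_gb]; decide)
  refine ⟨⟨l₁, prod_ker.2 hc1⟩, ⟨l₂, prod_ker.2 hc2⟩, ?_⟩
  show tr (s (l₁ * l₂ * l₁⁻¹ * l₂⁻¹)) ≠ 2
  rw [hchar]
  intro h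
  have h3 : T (l₁ * l₂ * l₁⁻¹ * l₂⁻¹) = 2 := by
    apply hinj
    rw [h, map_ofNat]
  have h4 := hred (l₁ * l₂ * l₁⁻¹ * l₂⁻¹)
  rw [h3, map_mul, map_mul, map_mul, map_inv, map_inv, hl1, hl2, map_mul, map_mul, rF1_ga,
    rF1_gb] at h4
  unfold mu1 mv1 at h4
  simp only [mx_mul, mx_inv, mx_tr, map_ofNat] at h4
  exact absurd h4 (by decide)

/-! ### The detwisted representation -/

section dt

theorem e1_neg {x : O1} (h : -x = x) : x = 0 := by
  have h1 := congrArg QuadraticAlgebra.re h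
  have h2 := congrArg QuadraticAlgebra.im h
  rw [QuadraticAlgebra.re_neg] at h1
  rw [QuadraticAlgebra.im_neg] at h2
  exact QuadraticAlgebra.ext (int_neg h1) (int_neg h2)

theorem se_fix {z : Z1} (h : se ℤ z = z) : z.b = 0 := by
  have h1 : -z.b = z.b := congrArg S1.b h
  apply K1.ext
  · exact e1_neg (congrArg K1.a h1)
  · exact e1_neg (congrArg K1.b h1)

theorem sf_fix {z : Z1} (h : sf ℤ z = z) : z.a.b = 0 :=
  e1_neg (congrArg (fun w : Z1 => w.a.b) h)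

theorem sf_neg_fix {z : Z1} (h : -sf ℤ z = z) : z.a.a = 0 :=
  e1_neg (congrArg (fun w : Z1 => w.a.a) h)

variable {g : SL2 Z1} (h : tw (sf ℤ) g = g) (h' : SLm (se ℤ) g = g)

include h' in
theorem dt_z (i j : Fin 2) : (g.val i j).b = 0 :=
  se_fix (congrArg (fun x : SL2 Z1 => x.val i j) h')

include h in
theorem dt_a : (g.val 0 0).a.b = 0 := sf_fix (congrArg (fun x : SL2 Z1 => x.val 0 0) h)
include h in
theorem dt_b : (g.val 0 1).a.a = 0 := sf_neg_fix (congrArg (fun x : SL2 Z1 => x.val 0 1) h)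
include h in
theorem dt_c : (g.val 1 0).a.a = 0 := sf_neg_fix (congrArg (fun x : SL2 Z1 => x.val 1 0) h)
include h in
theorem dt_d : (g.val 1 1).a.b = 0 := sf_fix (congrArg (fun x : SL2 Z1 => x.val 1 1) h)

include h h' in
theorem dt_det : (g.val 0 0).a.a * (g.val 1 1).a.a -
    (g.val 0 1).a.b * (pp ℤ * (g.val 1 0).a.b) = 1 := by
  have h1 := congrArg (fun z : Z1 => z.a.a) (G.SL_det g)
  simp only [S1.sub_a, S1.mul_a, S1.one_a, K1.sub_a, K1.mul_a, K1.one_a, dt_z h',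
    dt_a h, dt_b h, mul_zero, zero_mul, add_zero, zero_add] at h1
  linear_combination h1

end dt

/-- `[[a, f b], [f c, d]] ↦ [[a, b], [π c, d]]` -/
def dt (g : SL2 Z1) (h : tw (sf ℤ) g = g) (h' : SLm (se ℤ) g = g) : SL2 O1 :=
  mx (g.val 0 0).a.a (g.val 0 1).a.b (pp ℤ * (g.val 1 0).a.b) (g.val 1 1).a.a (dt_det h h')

theorem dt_mul (g g' : SL2 Z1) (h : tw (sf ℤ) g = g) (hh : SLm (se ℤ) g = g)
    (h' : tw (sf ℤ) g' = g') (hh' : SLm (se ℤ) g' = g') (h2 : tw (sf ℤ) (g * g') = g * g')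
    (hh2 : SLm (se ℤ) (g * g') = g * g') : dt (g * g') h2 hh2 = dt g h hh * dt g' h' hh' := by
  unfold dt
  rw [mx_mul]
  apply mx_congr <;>
    simp only [G.SL_mul, S1.add_a, S1.mul_a, K1.add_a, K1.add_b, K1.mul_a, K1.mul_b, dt_z hh,
      dt_z hh', dt_a h, dt_b h, dt_c h, dt_d h, dt_a h', dt_b h', dt_c h', dt_d h', mul_zero,
      add_zero, zero_add] <;> ring

theorem dt_tr (g : SL2 Z1) (h : tw (sf ℤ) g = g) (h' : SLm (se ℤ) g = g) :
    c1 ℤ (tr (dt g h h')) = tr g := by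
  unfold dt
  rw [mx_tr, tr_eq, map_add]
  congr 1
  · apply S1.ext
    · apply K1.ext
      · rfl
      · exact (dt_a h).symm
    · exact (dt_z h' 0 0).symm
  · apply S1.ext
    · apply K1.ext
      · rfl
      · exact (dt_d h).symm
    · exact (dt_z h' 1 1).symm

theorem ker_tw (n : ℕ) (g : ((chf n).prod (che n)).ker) : tw (sf ℤ) (r1 n g) = r1 n g := by
  have h1 : chf n g = 1 := (prod_ker.1 g.2).1
  rw [tw_r1, h1, mus_one]

theorem ker_sm (n : ℕ) (g : ((chf n).prod (che n)).ker) : SLm (se ℤ) (r1 n g) = r1 n g := by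
  have h1 : che n g = 1 := (prod_ker.1 g.2).2
  rw [sm_r1, h1, mus_one]

/-- the detwisted representation -/
def r10 (n : ℕ) : ((chf n).prod (che n)).ker →* SL2 O1 where
  toFun g := dt (r1 n g) (ker_tw n g) (ker_sm n g)
  map_one' := by
    unfold dt
    rw [mx_one]
    apply mx_congr <;> simp
  map_mul' g g' := by
    rw [← dt_mul _ _ (ker_tw n g) (ker_sm n g) (ker_tw n g') (ker_sm n g') (by
      have := ker_tw n (g * g')
      rw [Subgroup.coe_mul, map_mul] at this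
      exact this) (by
      have := ker_sm n (g * g')
      rw [Subgroup.coe_mul, map_mul] at this
      exact this)]
    congr 1
    exact map_mul (r1 n) _ _

theorem r10_tr (n : ℕ) (g : ((chf n).prod (che n)).ker) :
    c1 ℤ (tr (r10 n g)) = tr (r1 n g) := dt_tr _ (ker_tw n g) (ker_sm n g)

/-- `c1` and the reductions -/
theorem S1m_c1 {S : Type} [CommRing S] (g : ℤ →+* S) (t : O1) :
    S1m g (c1 ℤ t) = c1 S (E1m g t) := by
  rw [S1m_apply]
  apply S1.ext <;> apply K1.ext <;> apply QuadraticAlgebra.ext <;>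
    first | rfl | exact map_zero g

theorem fix_c1 {z : Z1} (h : sf ℤ z = z) (h' : se ℤ z = z) : z = c1 ℤ z.a.a := by
  apply S1.ext
  · apply K1.ext
    · rfl
    · exact sf_fix h
  · exact se_fix h'

theorem loc_link (n : ℕ) (Λ : Type) [Group Λ] (Φ : NatBij (GA (al1 ^ n)) Λ) (T : Λ → Z1)
    (hfix : ∀ l, Φ.toFun _ (chf n) l = 1 → sf ℤ (T l) = T l)
    (hfix' : ∀ l, Φ.toFun _ (che n) l = 1 → se ℤ (T l) = T l)
    (hred : ∀ (S : Type) [CommRing S] [Finite S] (h : Z1 →+* S) (l : Λ),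
      h (T l) = tr (Φ.toFun _ ((SLm h).comp (r1 n)) l)) (m : ℕ) (hm : 0 < m) :
    ∃ r : ((Φ.toFun _ (chf n)).prod (Φ.toFun _ (che n))).ker →* SL2 (E1 (ZMod m)),
      ∀ l : ((Φ.toFun _ (chf n)).prod (Φ.toFun _ (che n))).ker,
      ∃ t : O1, T l = c1 ℤ t ∧ tr (r l) = E1m (Int.castRingHom (ZMod m)) t := by
  have : NeZero m := ⟨hm.ne'⟩
  have hp : Φ.toFun _ ((chf n).prod (che n)) = (Φ.toFun _ (chf n)).prod (Φ.toFun _ (che n)) :=
    pair_prod Φ (chf n) (che n)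
  obtain ⟨Ψ, hΨ⟩ := natBij_ker Φ hp
  let θ₁ : ((chf n).prod (che n)).ker →* SL2 (E1 (ZMod m)) :=
    (SLm (E1m (Int.castRingHom (ZMod m)))).comp (r10 n)
  let θ₂ : ((chf n).prod (che n)).ker →* SL2 (S1 (ZMod m)) :=
    ((SLm (S1m (Int.castRingHom (ZMod m)))).comp (r1 n)).comp ((chf n).prod (che n)).ker.subtype
  refine ⟨Ψ.toFun _ θ₁, fun l => ⟨(T l).a.a, fix_c1 (hfix l (prod_ker.1 l.2).1)
    (hfix' l (prod_ker.1 l.2).2), ?_⟩⟩
  obtain ⟨g, hg1, hg2⟩ := pair_val Ψ θ₁ θ₂ l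
  rw [← hg1]
  have h1 : tr (θ₂ g) = S1m (Int.castRingHom (ZMod m)) (T l) := by
    rw [hg2, hred, hΨ]
    rfl
  have h2 : tr (θ₂ g) = c1 (ZMod m) (tr (θ₁ g)) := by
    show tr (SLm _ (r1 n g)) = c1 _ (tr (SLm _ (r10 n g)))
    rw [tr_map, tr_map, ← r10_tr, S1m_c1]
  rw [h2, fix_c1 (hfix l (prod_ker.1 l.2).1) (hfix' l (prod_ker.1 l.2).2), S1m_c1] at h1
  exact congrArg (fun z : S1 (ZMod m) => z.a.a) h1

/-- BLOCK lk1 -/
theorem p_lk1 : S_lk1 := by
  intro n Λ _ Φ nL hsur hcm T s j hout χf χe hχf hχe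
  subst hχf hχe
  have hfix : ∀ l, Φ.toFun _ (chf n) l = 1 → sf ℤ (T l) = T l :=
    sign_one (sf ℤ) Φ (r1 n) (chf n) (tw_r1 n) T hout.red Z1_rf
  have hfix' : ∀ l, Φ.toFun _ (che n) l = 1 → se ℤ (T l) = T l :=
    signS_one (se ℤ) Φ (r1 n) (che n) (sm_r1 n) T hout.red Z1_rf
  refine ⟨hfix, sign_ne (sf ℤ) Φ (r1 n) (chf n) (tw_r1 n) T hout.red Z1_rf, ?_, hfix',
    signS_ne (se ℤ) Φ (r1 n) (che n) (sm_r1 n) T hout.red Z1_rf,
    irr_link n Λ Φ T s j hout.inj hout.char (hout.red (ZMod 41) h41),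
    loc_link n Λ Φ T hfix hfix' hout.red⟩
  have h1 : Multiplicative.ofAdd (1 : ZMod 2) ∈ (Φ.toFun _ (chf n)).range := by
    rw [Φ.range_eq]
    exact ⟨iA (al1 ^ n) ga, by rw [chf_iA, ch0f_ga]⟩
  obtain ⟨l, hl⟩ := h1
  exact ⟨l, by rw [hl]; decide⟩

end Pool.Agent.F8.D1
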