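import Pool.Agent.Lib.MP_305fdd_al.F8.D1.Fin
import Pool.Agent.Lib.MP_305fdd_al.F8.D1.G.Fin

/-!
# MP_305fdd_al, `d = 1`: the groups `GA (al1 ^ n)` and their overgroups are profinitely rigid, from the block X1
-/

set_option autoImplicit false

namespace Pool.Agent.F8.D1

open Pool.Agent.MP_305fdd_al Pool.Agent.Lib.MP_305fdd_al Pool.Agent.F2X Pool.Agent.F8
  Pool.Agent.F8.HN Pool.Agent.F8.AB Pool.Agent.F8.OV

/-- the groups `GA (al1 ^ n)`, `n ≥ 1`, are profinitely rigid -/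
theorem rig1X (hX : S_X1) : S_rig1 := rig1_of hX p_G1

/-- rigidity and regularity -/
theorem reg1X (hX : S_X1) (n : ℕ) (hn : 0 < n) :
    ProfinitelyRigid (GA (al1 ^ n)) ∧ Reg (al1 ^ n) :=
  ⟨rig1X hX n hn, NG.A.all_NAG (al1 ^ n) (hyp1n n hn)⟩

/-- the overgroups of the groups `GA (al1 ^ n)` -/
theorem over1X (hX : S_X1) (Γ : Type) [Group Γ] (N : Subgroup Γ) (n : ℕ) (hn : 0 < n)
    (hN : N.Normal) (hi : N.FiniteIndex) (e : Nonempty (N ≃* GA (al1 ^ n)))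
    (hK : ∀ K : Subgroup Γ, K.Normal → Finite K → K = ⊥) : ProfinitelyRigid Γ :=
  all_OV al1 hyp1 lo1 ⟨Y1, inv1⟩ (reg1X hX) Γ N n hn hN hi e hK

/-- the groups `F ⋊_β ℤ` for the roots `β` of the powers of `al1` -/
theorem cyc1X (hX : S_X1) (β : MulAut F) (n k : ℕ) (hn : 0 < n) (hk : 0 < k)
    (hb : AM β ^ k = AM al1 ^ n) : ProfinitelyRigid (GA β) :=
  over1X hX (GA β) (subA β k) n hn (by unfold subA; infer_instance) (subA_fi β k hk)
    (GA_contains all_out al1 β n k hk hb) fun K _ hf => GA_nf β K hf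

end Pool.Agent.F8.D1
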